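import Mathlib

/-! Plane convex bodies: three point convexity with respect to centred ellipses of a fixed area. -/

namespace Pool.Agent.Lib.MP_5b78b3_gt.Pl

open MeasureTheory Set Filter Topology

abbrev V := ℝ × ℝ

/-- determinant of two plane vectors -/
def dt (a b : V) : ℝ := a.1 * b.2 - a.2 * b.1

/-- arcs of centred ellipses of discriminant `m` between points of `K` lie in `K` -/
def P (K : Set V) (m : ℝ) : Prop :=
  ∀ a ∈ K, ∀ b ∈ K, ∀ γ α β : ℝ, 0 ≤ γ → 1 - γ ^ 2 ≤ m * dt a b ^ 2 → 0 ≤ α → 0 ≤ β →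
    α ^ 2 + β ^ 2 + 2 * γ * α * β ≤ 1 → α • a + β • b ∈ K

/-- the body `ρ K` lies in every halfplane that cuts off area at most `D` -/
structure Hyp (K : Set V) (ρ : ℝ) (D : ENNReal) : Prop where
  cp : IsCompact K
  cv : Convex ℝ K
  nh : K ∈ 𝓝 (0 : V)
  fl : ∀ u1 u2 t : ℝ, volume (K ∩ {p | t < u1 * p.1 + u2 * p.2}) ≤ D →
    ∀ v ∈ K, ρ * (u1 * v.1 + u2 * v.2) ≤ t

/-- normal position: the line `x = 1` supports `K` at `(1, 0)` and `x = ρ` cuts off at most `D` -/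
structure Nm (K : Set V) (ρ : ℝ) (D : ENNReal) : Prop extends Hyp K ρ D where
  w : ((1, 0) : V) ∈ K
  le : ∀ v ∈ K, v.1 ≤ 1
  vol : volume (K ∩ {p | ρ < p.1}) ≤ D

/-- the linear map with matrix `(a b; c d)` -/
noncomputable def lin (a b c d : ℝ) : V →ₗ[ℝ] V :=
  Matrix.toLin (Module.Basis.finTwoProd ℝ) (Module.Basis.finTwoProd ℝ) !![a, b; c, d]

lemma lin_apply (a b c d : ℝ) (p : V) :
    lin a b c d p = (a * p.1 + b * p.2, c * p.1 + d * p.2) :=
  Matrix.toLin_finTwoProd_apply a b c d p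

lemma lin_det (a b c d : ℝ) : LinearMap.det (lin a b c d) = a * d - b * c := by
  rw [lin, LinearMap.det_toLin, Matrix.det_fin_two_of]

lemma lin_cont (a b c d : ℝ) : Continuous (lin a b c d) :=
  LinearMap.continuous_of_finiteDimensional _

lemma vol_pre {a b c d : ℝ} (h : (a * d - b * c) ^ 2 = 1) (s : Set V) :
    volume (lin a b c d ⁻¹' s) = volume s := by
  have h1 : |a * d - b * c| = 1 := by
    rw [← sq_eq_sq₀ (abs_nonneg _) zero_le_one, sq_abs, h, one_pow]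
  have h0 : LinearMap.det (lin a b c d) ≠ 0 := by
    rw [lin_det]
    intro h2
    rw [h2] at h
    norm_num at h
  rw [Measure.addHaar_preimage_linearMap volume h0, lin_det, abs_inv, h1]
  simp

lemma vol_le_of_map {a b c d : ℝ} (z : V) (h : 1 ≤ a * d - b * c) {G L : Set V}
    (hm : ∀ p ∈ G, lin a b c d p + z ∈ L) : volume G ≤ volume L := by
  have h1 : volume ((fun y => y + z) '' (lin a b c d '' G)) ≤ volume L := by
    refine measure_mono ?_
    rintro _ ⟨_, ⟨p, hp, rfl⟩, rfl⟩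
    exact hm p hp
  rw [image_add_right, measure_preimage_add_right, Measure.addHaar_image_linearMap, lin_det] at h1
  refine le_trans ?_ h1
  refine le_mul_of_one_le_left' ?_
  rw [← ENNReal.ofReal_one]
  exact ENNReal.ofReal_le_ofReal (h.trans (le_abs_self _))

lemma Hyp.pre {K : Set V} {ρ : ℝ} {D : ENNReal} (H : Hyp K ρ D) {a b c d : ℝ}
    (h : (a * d - b * c) ^ 2 = 1) : Hyp (lin a b c d ⁻¹' K) ρ D := by
  obtain ⟨e, he⟩ : ∃ e, e = a * d - b * c := ⟨_, rfl⟩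
  have he2 : e * e = 1 := by rw [he, ← sq, h]
  refine ⟨?_, H.cv.linear_preimage _, ?_, fun u1 u2 t hv v hvK => ?_⟩
  · have : lin a b c d ⁻¹' K = lin (e * d) (-(e * b)) (-(e * c)) (e * a) '' K := by
      ext p
      constructor
      · intro hp
        refine ⟨_, hp, ?_⟩
        rw [lin_apply, lin_apply]
        ext
        · simp only
          linear_combination (-(e * p.1)) * he + p.1 * he2
        · simp only
          linear_combination (-(e * p.2)) * he + p.2 * he2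
      · rintro ⟨q, hq, rfl⟩
        have : lin a b c d (lin (e * d) (-(e * b)) (-(e * c)) (e * a) q) = q := by
          rw [lin_apply, lin_apply]
          ext
          · simp only
            linear_combination (-(e * q.1)) * he + q.1 * he2
          · simp only
            linear_combination (-(e * q.2)) * he + q.2 * he2
        rw [mem_preimage, this]
        exact hq
    rw [this]
    exact H.cp.image (lin_cont _ _ _ _)
  · exact (lin_cont a b c d).continuousAt.preimage_mem_nhds (by rw [map_zero]; exact H.nh)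
  · have key : ∀ p : V, (e * (u1 * d - u2 * c)) * (lin a b c d p).1 +
        (e * (u2 * a - u1 * b)) * (lin a b c d p).2 = u1 * p.1 + u2 * p.2 := fun p => by
      rw [lin_apply]
      simp only
      linear_combination (-(e * (u1 * p.1 + u2 * p.2))) * he + (u1 * p.1 + u2 * p.2) * he2
    rw [← key v]
    refine H.fl _ _ t ?_ _ hvK
    rw [← vol_pre h]
    refine le_trans (le_of_eq ?_) hv
    congr 1
    ext p
    simp only [mem_preimage, mem_inter_iff, mem_ofPred_eq, key]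

lemma P.pre {K : Set V} {m : ℝ} (H : P K m) {a b c d : ℝ} (h : (a * d - b * c) ^ 2 = 1) :
    P (lin a b c d ⁻¹' K) m := by
  intro p hp q hq γ α β h1 h2 h3 h4 h5
  rw [mem_preimage, map_add, map_smul, map_smul]
  refine H _ hp _ hq γ α β h1 ?_ h3 h4 h5
  have : dt (lin a b c d p) (lin a b c d q) ^ 2 = dt p q ^ 2 := by
    simp only [lin_apply, dt]
    linear_combination (p.1 * q.2 - p.2 * q.1) ^ 2 * h
  rw [this]
  exact h2

/-- reflection in the first axis -/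
def rf (K : Set V) : Set V := lin 1 0 0 (-1) ⁻¹' K

lemma mem_rf {K : Set V} {x y : ℝ} : ((x, y) : V) ∈ rf K ↔ ((x, -y) : V) ∈ K := by
  simp [rf, lin_apply]

lemma Nm.rf {K : Set V} {ρ : ℝ} {D : ENNReal} (H : Nm K ρ D) : Nm (rf K) ρ D := by
  have h : ((1 : ℝ) * (-1) - 0 * 0) ^ 2 = 1 := by norm_num
  refine ⟨H.toHyp.pre h, mem_rf.2 (by simpa using H.w), fun v hv => H.le (v.1, -v.2) (mem_rf.1 hv),
    ?_⟩
  refine le_trans (le_of_eq ?_) H.vol
  rw [← vol_pre h (K ∩ _)]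
  congr 1
  ext p
  simp [Pl.rf, lin_apply]

lemma P.rf {K : Set V} {m : ℝ} (H : P K m) : P (rf K) m := H.pre (by norm_num)

lemma Hyp.zero {K : Set V} {ρ : ℝ} {D : ENNReal} (H : Hyp K ρ D) : (0 : V) ∈ K :=
  mem_of_mem_nhds H.nh

lemma tri {K : Set V} (hK : Convex ℝ K) {a b c : V} (ha : a ∈ K) (hb : b ∈ K) (hc : c ∈ K)
    {s t : ℝ} (hs : 0 ≤ s) (ht : 0 ≤ t) (hst : s + t ≤ 1) : (1 - s - t) • a + s • b + t • c ∈ K := by
  have := hK.sum_mem (t := Finset.univ) (w := ![1 - s - t, s, t]) (z := ![a, b, c])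
    (fun i _ => by fin_cases i <;> simp <;> linarith) (by simp [Fin.sum_univ_three]; ring)
    (fun i _ => by fin_cases i <;> simpa)
  simpa [Fin.sum_univ_three] using this

lemma comb {K : Set V} (hK : Convex ℝ K) (h0 : (0 : V) ∈ K) {a b : V} (ha : a ∈ K) (hb : b ∈ K)
    {α β : ℝ} (h1 : 0 ≤ α) (h2 : 0 ≤ β) (h : α + β ≤ 1) : α • a + β • b ∈ K := by
  simpa using tri hK h0 ha hb h1 h2 h

lemma comb' {K : Set V} (hK : Convex ℝ K) (h0 : (0 : V) ∈ K) {a b : V} (ha : a ∈ K) (hb : b ∈ K)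
    {γ α β : ℝ} (hγ : 1 ≤ γ) (h1 : 0 ≤ α) (h2 : 0 ≤ β) (h : α ^ 2 + β ^ 2 + 2 * γ * α * β ≤ 1) :
    α • a + β • b ∈ K := by
  refine comb hK h0 ha hb h1 h2 ?_
  have h3 : (α + β) ^ 2 ≤ 1 := by nlinarith [mul_nonneg (sub_nonneg.2 hγ) (mul_nonneg h1 h2)]
  nlinarith

lemma P_zero {K : Set V} (hK : Convex ℝ K) (h0 : (0 : V) ∈ K) : P K 0 := by
  intro a ha b hb γ α β h1 h2 h3 h4 h5
  exact comb' hK h0 ha hb (by nlinarith) h3 h4 h5

lemma ev_lt {f g : ℝ → ℝ} (hf : Continuous f) (hg : Continuous g) (h : f 0 < g 0) :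
    ∀ᶠ t in 𝓝[>] (0 : ℝ), f t < g t :=
  (hf.continuousAt.eventually_lt hg.continuousAt h).filter_mono nhdsWithin_le_nhds

lemma ev_pos : ∀ᶠ t in 𝓝[>] (0 : ℝ), 0 < t := self_mem_nhdsWithin

lemma mem_of_shrink {K : Set V} (hK : IsClosed K) {v : V}
    (h : ∀ t : ℝ, 0 < t → t < 1 → (1 - t) • v ∈ K) : v ∈ K := by
  have h1 : Tendsto (fun t : ℝ => (1 - t) • v) (𝓝[>] 0) (𝓝 v) := by
    have : Continuous fun t : ℝ => (1 - t) • v := by fun_prop
    simpa using (this.tendsto 0).mono_left nhdsWithin_le_nhds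
  refine hK.mem_of_tendsto h1 ?_
  filter_upwards [ev_pos, ev_lt continuous_id continuous_const (zero_lt_one' ℝ)] with t h1 h2
  exact h t h1 h2

lemma P_closed {K : Set V} (hK : IsClosed K) {m : ℝ} (h : ∀ ε > 0, ∃ m', m - ε ≤ m' ∧ P K m') :
    P K m := by
  intro a ha b hb γ α β h1 h2 h3 h4 h5
  refine mem_of_shrink hK fun t ht ht1 => ?_
  have e1 : ∀ᶠ ε in 𝓝[>] (0 : ℝ), (1 - t) ^ 2 * (1 + 2 * ε * α * β) < 1 :=
    ev_lt (by fun_prop) continuous_const (by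
      show (1 - t) ^ 2 * (1 + 2 * 0 * α * β) < 1
      nlinarith)
  obtain ⟨ε, hε, hε1⟩ := (ev_pos.and e1).exists
  have hd : 0 < dt a b ^ 2 + 1 := by positivity
  obtain ⟨m', hm, hP⟩ := h (ε ^ 2 / (dt a b ^ 2 + 1)) (by positivity)
  rw [smul_add, smul_smul, smul_smul]
  have ht2 : 0 ≤ 1 - t := by linarith
  refine hP a ha b hb (γ + ε) _ _ (by linarith) ?_ (mul_nonneg ht2 h3) (mul_nonneg ht2 h4) ?_
  · have h6 : ε ^ 2 / (dt a b ^ 2 + 1) * dt a b ^ 2 ≤ ε ^ 2 := by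
      rw [div_mul_eq_mul_div, div_le_iff₀ hd]
      nlinarith [sq_nonneg ε]
    nlinarith [mul_le_mul_of_nonneg_right hm (sq_nonneg (dt a b)), mul_nonneg h1 hε.le]
  · nlinarith [mul_le_mul_of_nonneg_left h5 (sq_nonneg (1 - t))]

lemma poly {γ κ L : ℝ} (hγ : 0 ≤ γ) (hL : 0 ≤ L) (h : γ * L < κ) :
    ∀ᶠ t in 𝓝[>] (0 : ℝ), 0 < 1 - κ * t ∧ ∀ α, 0 ≤ α → α ≤ L * t →
      α ^ 2 + (1 - κ * t) ^ 2 + 2 * γ * α * (1 - κ * t) ≤ 1 := by
  have e1 : ∀ᶠ t in 𝓝[>] (0 : ℝ), 0 < 1 - κ * t :=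
    ev_lt continuous_const (by fun_prop) (by simp)
  have e2 : ∀ᶠ t in 𝓝[>] (0 : ℝ), (L ^ 2 + κ ^ 2) * t + 2 * (γ * L) < 2 * κ :=
    ev_lt (by fun_prop) continuous_const (by simpa using h)
  filter_upwards [ev_pos, e1, e2] with t ht h1 h2
  refine ⟨h1, fun α h3 h4 => ?_⟩
  have hκ : 0 ≤ κ := (mul_nonneg hγ hL).trans h.le
  have h5 : α ^ 2 ≤ (L * t) ^ 2 := pow_le_pow_left₀ h3 h4 2
  have h6 : α * (1 - κ * t) ≤ L * t := by nlinarith [mul_nonneg h3 (mul_nonneg hκ ht.le)]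
  nlinarith [mul_le_mul_of_nonneg_left h6 hγ, mul_lt_mul_of_pos_right h2 ht]

/-- the part of `K` with positive first coordinate lies in the osculating ellipse -/
lemma cap_sub {K : Set V} {m : ℝ} (hP : P K m) (hw : ((1, 0) : V) ∈ K) (hle : ∀ v ∈ K, v.1 ≤ 1)
    {v : V} (hv : v ∈ K) (h0 : 0 < v.1) : v.1 ^ 2 + m * v.2 ^ 2 ≤ 1 := by
  by_contra! hc
  obtain ⟨γ, h1, h2, h3⟩ : ∃ γ, 0 ≤ γ ∧ γ < v.1 ∧ 1 - γ ^ 2 ≤ m * v.2 ^ 2 := by
    by_cases h : 1 - m * v.2 ^ 2 ≤ 0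
    · exact ⟨0, le_rfl, h0, by linarith⟩
    · refine ⟨√(1 - m * v.2 ^ 2), Real.sqrt_nonneg _, (Real.sqrt_lt' h0).2 (by linarith), ?_⟩
      rw [Real.sq_sqrt (by linarith)]
      linarith
  obtain ⟨t, ht, h4, h5⟩ := (ev_pos.and (poly (κ := (γ + v.1) / 2) h1 zero_le_one
    (by linarith))).exists
  have h6 := hP _ hw _ hv γ (1 - (γ + v.1) / 2 * t) t h1 (by simpa [dt] using h3) h4.le ht.le
    (by nlinarith [h5 t ht.le (by linarith)])
  have h7 := hle _ h6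
  simp only [Prod.fst_add, Prod.smul_fst, smul_eq_mul] at h7
  nlinarith

end Pool.Agent.Lib.MP_5b78b3_gt.Pl
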