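import Pool.Agent.Lib.MP_5b78b3_gt.Pl.A

/-! Tilting the chord that cuts off the prescribed area. -/

namespace Pool.Agent.Lib.MP_5b78b3_gt.Pl

open MeasureTheory Set Filter Topology

variable {K : Set V} {ρ m : ℝ} {D : ENNReal}

/-- `(ρ, l)` is the upper end of the chord `x = ρ` -/
def Ch (K : Set V) (ρ l : ℝ) : Prop :=
  0 < l ∧ ((ρ, l) : V) ∈ K ∧ ∀ y, ((ρ, y) : V) ∈ K → y ≤ l

lemma Nm.exists_ch (H : Nm K ρ D) (h0 : 0 < ρ) (h1 : ρ < 1) : ∃ l, Ch K ρ l := by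
  have hc : Continuous fun y : ℝ => ((0, y) : V) := by fun_prop
  have e1 : ∀ᶠ y in 𝓝[>] (0 : ℝ), ((0, y) : V) ∈ K :=
    nhdsWithin_le_nhds (hc.continuousAt.preimage_mem_nhds H.nh)
  obtain ⟨y, hy, hyK⟩ := (ev_pos.and e1).exists
  have h2 : ((ρ, (1 - ρ) * y) : V) ∈ K := by
    simpa using H.cv H.w hyK h0.le (sub_nonneg.2 h1.le) (by ring)
  have hcl : IsClosed {p : V | p.1 = ρ} := isClosed_eq continuous_fst continuous_const
  obtain ⟨p, hp, hmax⟩ := (H.cp.inter_right hcl).exists_isMaxOn ⟨_, h2, rfl⟩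
    continuous_snd.continuousOn
  have hp1 : p.1 = ρ := hp.2
  refine ⟨p.2, lt_of_lt_of_le (mul_pos (by linarith) hy) (hmax ⟨h2, rfl⟩), ?_,
    fun y hy => hmax ⟨hy, rfl⟩⟩
  rw [← hp1]
  exact hp.1

lemma vol_line (ρ : ℝ) : volume {p : V | p.1 = ρ} = 0 := by
  have : {p : V | p.1 = ρ} = ({ρ} : Set ℝ) ×ˢ (univ : Set ℝ) := by
    ext p
    simp
  rw [this, Measure.volume_eq_prod, Measure.prod_prod]
  simp

lemma Nm.vol' (H : Nm K ρ D) : volume (K ∩ {p | ρ ≤ p.1}) ≤ D := by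
  refine le_trans (measure_mono (t := (K ∩ {p | ρ < p.1}) ∪ {p : V | p.1 = ρ}) ?_) ?_
  · rintro p ⟨h1, h2⟩
    rcases (show ρ ≤ p.1 from h2).eq_or_lt with h | h
    · exact Or.inr h.symm
    · exact Or.inl ⟨h1, h⟩
  · refine (measure_union_le _ _).trans ?_
    rw [vol_line, add_zero]
    exact H.vol

/-- area comparison for the tilted line `x + σ y = ρ + η` -/
lemma Nm.tilt (H : Nm K ρ D) {l1 l2 k k' σ η d0 : ℝ} (hσ : 0 < σ) (hk : σ * k < 1) (hk' : 0 ≤ k')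
    (hν : 0 < σ * l1 - η) (hν' : 0 < σ * l2 + η)
    (up : ∀ v ∈ K, v.1 < ρ → v.2 ≤ l1 + k * (ρ - v.1))
    (h0 : ((ρ, l1) : V) ∈ K) (h1 : ((ρ, -l2) : V) ∈ K) (h2 : ((ρ + d0, -l2 + k' * d0) : V) ∈ K)
    (hd : σ * l2 + η ≤ d0)
    (hcmp : (σ * l1 - η) ^ 2 * (1 + σ * k') ≤ (σ * l2 + η) ^ 2 * (1 - σ * k)) :
    ∀ v ∈ K, ρ * (v.1 + σ * v.2) ≤ ρ + η := by
  obtain ⟨ν, hνe⟩ : ∃ ν, ν = σ * l1 - η := ⟨_, rfl⟩
  obtain ⟨ν', hνe'⟩ : ∃ ν', ν' = σ * l2 + η := ⟨_, rfl⟩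
  obtain ⟨μ, hμe⟩ : ∃ μ, μ = 1 - σ * k := ⟨_, rfl⟩
  obtain ⟨μ', hμe'⟩ : ∃ μ', μ' = 1 + σ * k' := ⟨_, rfl⟩
  rw [← hνe] at hν hcmp
  rw [← hνe'] at hν' hcmp hd
  rw [← hμe, ← hμe'] at hcmp
  have hμ : 0 < μ := by linarith
  have hμ1 : 1 ≤ μ' := by nlinarith [mul_nonneg hσ.le hk']
  have hμ' : 0 < μ' := by linarith
  have hd0 : 0 < d0 := by linarith
  have hP0 : ((ρ, η / σ) : V) ∈ K := by
    have hs : 0 < ν + ν' := by linarith
    have := H.cv h0 h1 (div_nonneg hν'.le hs.le) (div_nonneg hν.le hs.le) (by field_simp; ring)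
    convert this using 1
    ext
    · simp only [Prod.fst_add, Prod.smul_fst, smul_eq_mul]
      field_simp
      ring
    · simp only [Prod.snd_add, Prod.smul_snd, smul_eq_mul]
      field_simp
      rw [hνe, hνe']
      ring
  have hP2 : ((ρ + ν' / μ', -l2 + k' * (ν' / μ')) : V) ∈ K := by
    have h3 : ν' / μ' / d0 ≤ 1 := by
      rw [div_le_one hd0, div_le_iff₀ hμ']
      nlinarith
    have := H.cv h1 h2 (sub_nonneg.2 h3) (by positivity : 0 ≤ ν' / μ' / d0) (by ring)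
    convert this using 1
    ext
    · simp only [Prod.fst_add, Prod.smul_fst, smul_eq_mul]
      field_simp
      ring
    · simp only [Prod.snd_add, Prod.smul_snd, smul_eq_mul]
      field_simp
      ring
  obtain ⟨r, hr⟩ : ∃ r, r = ν' / ν := ⟨_, rfl⟩
  obtain ⟨r', hr'⟩ : ∃ r', r' = ν' * μ / (ν * μ') := ⟨_, rfl⟩
  have hr0 : 0 < r := by rw [hr]; positivity
  have hr0' : 0 < r' := by rw [hr']; positivity
  set A : Set V := K ∩ {p | ρ ≤ p.1} with hA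
  set G : Set V := K ∩ {p | p.1 < ρ ∧ ρ + η < p.1 + σ * p.2} with hG
  set S : Set V := {p | ρ + η < p.1 + σ * p.2} with hS
  have hGL : volume G ≤ volume (A \ S) := by
    refine vol_le_of_map (a := -r') (b := 0) (c := (r' - r) / σ) (d := -r)
      (ρ + r' * ρ, (η - r' * ρ + r * (ρ + η)) / σ) ?_ ?_
    · rw [hr, hr']
      have : -(ν' * μ / (ν * μ')) * -(ν' / ν) - 0 * ((ν' * μ / (ν * μ') - ν' / ν) / σ) =
          ν' ^ 2 * μ / (ν ^ 2 * μ') := by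
        field_simp
        ring
      rw [this, one_le_div (by positivity)]
      exact hcmp
    · rintro p ⟨hp, hp1, hp2⟩
      have hu := up p hp hp1
      have ha : 0 < p.1 + σ * p.2 - (ρ + η) := by linarith
      have hb : 0 < ρ - p.1 := by linarith
      have hst : (p.1 + σ * p.2 - (ρ + η)) / ν + μ * (ρ - p.1) / ν ≤ 1 := by
        rw [← add_div, div_le_one hν, hμe, hνe]
        nlinarith [mul_le_mul_of_nonneg_left hu hσ.le]
      have hm := tri H.cv hP0 h1 hP2 (div_nonneg ha.le hν.le)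
        (div_nonneg (mul_nonneg hμ.le hb.le) hν.le) hst
      rw [lin_apply]
      refine ⟨⟨?_, ?_⟩, ?_⟩
      · convert hm using 1
        have e1 : l2 = (ν' - η) / σ := by rw [hνe']; field_simp; ring
        have e2 : k' = (μ' - 1) / σ := by rw [hμe']; field_simp; ring
        ext
        · simp only [Prod.fst_add, Prod.smul_fst, smul_eq_mul, hr']
          field_simp
          ring
        · simp only [Prod.snd_add, Prod.smul_snd, smul_eq_mul, hr, hr']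
          rw [e1, e2]
          field_simp
          ring
      · simp only [mem_ofPred_eq, Prod.fst_add]
        nlinarith [mul_pos hr0' hb]
      · simp only [hS, mem_ofPred_eq, Prod.fst_add, Prod.snd_add, not_lt]
        have : -r' * p.1 + 0 * p.2 + (ρ + r' * ρ) + σ * ((r' - r) / σ * p.1 + -r * p.2 +
            (η - r' * ρ + r * (ρ + η)) / σ) = ρ + η - r * (p.1 + σ * p.2 - (ρ + η)) := by
          field_simp
          ring
        rw [this]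
        nlinarith [mul_pos hr0 ha]
  have hSm : MeasurableSet S := (isOpen_lt continuous_const (by fun_prop)).measurableSet
  have hv : volume (K ∩ {p | ρ + η < 1 * p.1 + σ * p.2}) ≤ D := by
    refine le_trans (measure_mono (t := (A ∩ S) ∪ G) ?_) ?_
    · rintro p ⟨hp, hp1⟩
      have hp2 : ρ + η < p.1 + σ * p.2 := by simpa using hp1
      by_cases h : ρ ≤ p.1
      · exact Or.inl ⟨⟨hp, h⟩, hp2⟩
      · exact Or.inr ⟨hp, not_le.1 h, hp2⟩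
    · refine (measure_union_le _ _).trans ((add_le_add le_rfl hGL).trans ?_)
      rw [measure_inter_add_sdiff _ hSm]
      exact H.vol'
  intro v hvK
  simpa using H.fl 1 σ (ρ + η) hv v hvK

lemma Nm.mid_le (H : Nm K ρ D) (h1 : ρ < 1) {l1 l2 : ℝ} (c1 : Ch K ρ l1)
    (c2 : Ch (Pl.rf K) ρ l2) : l2 ≤ l1 := by
  by_contra! hc
  have hρ : 0 < 1 - ρ := by linarith
  have hl1 := c1.1
  have hl2 := c2.1
  obtain ⟨e, he⟩ : ∃ e, e = (l2 - l1) / 4 := ⟨_, rfl⟩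
  have he0 : 0 < e := by linarith
  have e1 : ∀ᶠ σ in 𝓝[>] (0 : ℝ), σ * (l1 / (1 - ρ)) < 1 :=
    ev_lt (by fun_prop) continuous_const (by simp)
  have e2 : ∀ᶠ σ in 𝓝[>] (0 : ℝ), σ * l2 < 1 - ρ :=
    ev_lt (by fun_prop) continuous_const (by simpa using h1)
  have e3 : ∀ᶠ σ in 𝓝[>] (0 : ℝ), (l1 + e) ^ 2 * (1 + σ * (l2 / (1 - ρ))) <
      (l2 - e) ^ 2 * (1 - σ * (l1 / (1 - ρ))) :=
    ev_lt (by fun_prop) (by fun_prop) (by
      show (l1 + e) ^ 2 * (1 + 0 * _) < (l2 - e) ^ 2 * (1 - 0 * _)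
      nlinarith)
  obtain ⟨σ, ⟨⟨hσ, f1⟩, f2⟩, f3⟩ := (((ev_pos.and e1).and e2).and e3).exists
  have := H.tilt (l1 := l1) (l2 := l2) (k := l1 / (1 - ρ)) (k' := l2 / (1 - ρ)) (η := -(σ * e))
    (d0 := 1 - ρ) hσ f1 (by positivity) (by nlinarith [mul_pos hσ hl1, mul_pos hσ he0])
    (by nlinarith [mul_pos hσ (show 0 < l2 - e by linarith)]) (fun v hv hv1 => ?_) c1.2.1
    (mem_rf.1 c2.2.1) (by
      have : l2 / (1 - ρ) * (1 - ρ) = l2 := by field_simp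
      rw [this]
      simpa using H.w) (by nlinarith [mul_pos hσ he0])
    (by nlinarith [mul_lt_mul_of_pos_left f3 (pow_pos hσ 2)]) _ H.w
  · simp only at this
    nlinarith [mul_pos hσ he0]
  · have hx : 0 < 1 - v.1 := by linarith
    have h3 := H.cv hv H.w (div_nonneg hρ.le hx.le) (div_nonneg (sub_nonneg.2 hv1.le) hx.le)
      (by field_simp; ring)
    have h4 : ((1 - ρ) / (1 - v.1)) • v + ((ρ - v.1) / (1 - v.1)) • ((1, 0) : V) =
        (ρ, (1 - ρ) / (1 - v.1) * v.2) := by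
      ext
      · simp only [Prod.fst_add, Prod.smul_fst, smul_eq_mul]
        field_simp
        ring
      · simp
    rw [h4] at h3
    have h5 := c1.2.2 _ h3
    rw [div_mul_eq_mul_div, div_le_iff₀ hx] at h5
    have h6 : l1 + l1 / (1 - ρ) * (ρ - v.1) = l1 * (1 - v.1) / (1 - ρ) := by
      field_simp
      ring
    rw [h6, le_div_iff₀ hρ]
    linarith

lemma rf_rf (K : Set V) : rf (rf K) = K := by
  ext ⟨x, y⟩
  simp [mem_rf]

lemma Nm.mid (H : Nm K ρ D) (h0 : 0 < ρ) (h1 : ρ < 1) :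
    ∃ l, Ch K ρ l ∧ Ch (Pl.rf K) ρ l := by
  obtain ⟨l1, c1⟩ := H.exists_ch h0 h1
  obtain ⟨l2, c2⟩ := H.rf.exists_ch h0 h1
  have := le_antisymm (H.mid_le h1 c1 c2) (H.rf.mid_le h1 c2 (by rwa [rf_rf]))
  exact ⟨l1, c1, this ▸ c2⟩

lemma slope_up (H : Nm K ρ D) (hP : P K m) (hm : 0 ≤ m) (h0 : 0 < ρ) {l γ κ : ℝ} (c : Ch K ρ l)
    (hγ : 0 ≤ γ) (hγm : 1 - γ ^ 2 ≤ m * l ^ 2) (hκ : γ * (1 + κ * ρ) < κ) (hκ0 : 0 ≤ κ) :
    ∀ v ∈ K, v.1 < ρ → v.2 ≤ l + κ * l * (ρ - v.1) := by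
  intro v hv hv1
  by_contra! hc
  have hl := c.1
  have hb : 0 < ρ - v.1 := by linarith
  obtain ⟨k, hk⟩ : ∃ k, k = (v.2 - l) / (ρ - v.1) := ⟨_, rfl⟩
  have hk1 : κ * l < k := by
    rw [hk, lt_div_iff₀ hb]
    linarith
  have hk0 : 0 ≤ k := (mul_nonneg hκ0 hl.le).trans hk1.le
  have e1 : ∀ᶠ t in 𝓝[>] (0 : ℝ), t < ρ - v.1 := ev_lt continuous_id continuous_const hb
  have e2 : ∀ᶠ t in 𝓝[>] (0 : ℝ), κ * l + κ * k * t < k :=
    ev_lt (by fun_prop) continuous_const (by simpa using hk1)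
  have e3 : ∀ᶠ t in 𝓝[>] (0 : ℝ), κ * t < 1 + κ * ρ :=
    ev_lt (by fun_prop) continuous_const (by simp; nlinarith [mul_nonneg hκ0 h0.le])
  obtain ⟨t, ⟨⟨⟨ht, f1⟩, f2⟩, f3⟩, f4, f5⟩ := ((((ev_pos.and e1).and e2).and e3).and
    (poly hγ (by nlinarith [mul_nonneg hκ0 h0.le]) hκ)).exists
  have h3 : ((ρ - t, l + k * t) : V) ∈ K := by
    have h4 : t / (ρ - v.1) ≤ 1 := (div_le_one hb).2 f1.le
    have := H.cv c.2.1 hv (sub_nonneg.2 h4) (div_nonneg ht.le hb.le) (by ring)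
    convert this using 1
    ext
    · simp only [Prod.fst_add, Prod.smul_fst, smul_eq_mul]
      field_simp
      ring
    · simp only [Prod.snd_add, Prod.smul_snd, smul_eq_mul, hk]
      field_simp
      ring
  have h5 : 0 ≤ (1 + κ * ρ - κ * t) * t := mul_nonneg (by linarith) ht.le
  have h6 := hP _ H.w _ h3 γ ((1 + κ * ρ - κ * t) * t) (1 - κ * t) hγ (by
    simp only [dt]
    nlinarith [mul_nonneg hm (mul_nonneg (mul_nonneg hk0 ht.le) hl.le),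
      mul_nonneg hm (sq_nonneg (k * t))]) h5 f4.le
    (f5 _ h5 (by nlinarith [mul_nonneg hκ0 (mul_nonneg ht.le ht.le)]))
  have h7 : ((1 + κ * ρ - κ * t) * t) • ((1, 0) : V) + (1 - κ * t) • ((ρ - t, l + k * t) : V) =
      (ρ, (1 - κ * t) * (l + k * t)) := by
    ext
    · simp only [Prod.fst_add, Prod.smul_fst, smul_eq_mul]
      ring
    · simp
  rw [h7] at h6
  have h8 := c.2.2 _ h6
  nlinarith [mul_lt_mul_of_pos_right f2 ht]

lemma slope_in (H : Nm K ρ D) (hP : P K m) (h0 : 0 < ρ) {l γ κ : ℝ} (c : Ch K ρ l)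
    (hγ : 0 ≤ γ) (hγm : 1 - γ ^ 2 ≤ m * l ^ 2) (hκ : γ * (1 + κ * ρ) < κ) (hκ0 : 0 ≤ κ) :
    ∃ d0 > 0, ((ρ + d0, l - κ * l * d0) : V) ∈ K := by
  have hL : 0 ≤ 1 + κ * ρ := by nlinarith [mul_nonneg hκ0 h0.le]
  obtain ⟨t, ht, f4, f5⟩ := (ev_pos.and (poly hγ hL hκ)).exists
  have h5 : 0 ≤ (1 + κ * ρ) * t := mul_nonneg hL ht.le
  have h6 := hP _ H.w _ c.2.1 γ ((1 + κ * ρ) * t) (1 - κ * t) hγ (by simpa [dt] using hγm) h5 f4.le
    (f5 _ h5 le_rfl)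
  refine ⟨t, ht, ?_⟩
  convert h6 using 1
  ext
  · simp only [Prod.fst_add, Prod.smul_fst, smul_eq_mul]
    ring
  · simp only [Prod.snd_add, Prod.smul_snd, smul_eq_mul]
    ring

lemma half_planes (H : Nm K ρ D) (hP : P K m) (hm : 0 ≤ m) (h0 : 0 < ρ) {l γ κ e : ℝ}
    (c1 : Ch K ρ l) (c2 : Ch (rf K) ρ l) (hγ : 0 ≤ γ) (hγm : 1 - γ ^ 2 ≤ m * l ^ 2)
    (hκ : γ * (1 + κ * ρ) < κ) (hκ0 : 0 ≤ κ) (he : κ * l ^ 2 < 2 * e) :
    ∀ᶠ σ in 𝓝[>] (0 : ℝ), ∀ v ∈ K, ρ * (v.1 + σ * v.2) ≤ ρ + e * σ ^ 2 := by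
  have hl := c1.1
  obtain ⟨d0, hd0, hd⟩ := slope_in H.rf hP.rf h0 c2 hγ hγm hκ hκ0
  have e1 : ∀ᶠ σ in 𝓝[>] (0 : ℝ), σ * (κ * l) < 1 :=
    ev_lt (by fun_prop) continuous_const (by simp)
  have e2 : ∀ᶠ σ in 𝓝[>] (0 : ℝ), σ * l + e * σ ^ 2 < d0 :=
    ev_lt (by fun_prop) continuous_const (by simpa using hd0)
  have e3 : ∀ᶠ σ in 𝓝[>] (0 : ℝ), e * σ < l :=
    ev_lt (by fun_prop) continuous_const (by simpa using hl)
  have e4 : ∀ᶠ σ in 𝓝[>] (0 : ℝ), κ * (l ^ 2 + (e * σ) ^ 2) < 2 * e :=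
    ev_lt (by fun_prop) continuous_const (by simpa using he)
  have he0 : 0 < e := by nlinarith [mul_nonneg hκ0 (sq_nonneg l)]
  filter_upwards [ev_pos, e1, e2, e3, e4] with σ hσ f1 f2 f3 f4
  refine H.tilt (l1 := l) (l2 := l) (k := κ * l) (k' := κ * l) (d0 := d0) hσ f1
    (mul_nonneg hκ0 hl.le) (by nlinarith [mul_lt_mul_of_pos_left f3 hσ]) (by positivity)
    (slope_up H hP hm h0 c1 hγ hγm hκ hκ0) c1.2.1 (mem_rf.1 c2.2.1) ?_ f2.le ?_
  · convert mem_rf.1 hd using 2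
    ring
  · nlinarith [mul_lt_mul_of_pos_left f4 (mul_pos (pow_pos hσ 3) hl)]

/-- the local improvement -/
lemma improve (H : Nm K ρ D) (hP : P K m) (hm : 0 ≤ m) (h0 : 0 < ρ) {l γ m' : ℝ}
    (c1 : Ch K ρ l) (c2 : Ch (rf K) ρ l) (hγ : 0 < γ) (hγ1 : γ * ρ < 1)
    (hγm : 1 - γ ^ 2 ≤ m * l ^ 2) (hm' : m' * l ^ 2 * γ < ρ * (1 - γ * ρ)) :
    ∀ᶠ v in 𝓝 ((1, 0) : V), v ∈ K → v.1 ^ 2 + m' * v.2 ^ 2 ≤ 1 := by
  have hl := c1.1
  have hg : 0 < 1 - γ * ρ := by linarith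
  obtain ⟨κ, hκ1, hκ2⟩ : ∃ κ, γ / (1 - γ * ρ) < κ ∧ m' * (κ * l ^ 2) < ρ := by
    have e1 : ∀ᶠ t in 𝓝[>] (0 : ℝ), m' * ((γ / (1 - γ * ρ) + t) * l ^ 2) < ρ :=
      ev_lt (by fun_prop) continuous_const (by
        show m' * ((γ / (1 - γ * ρ) + 0) * l ^ 2) < ρ
        have : m' * ((γ / (1 - γ * ρ) + 0) * l ^ 2) = m' * l ^ 2 * γ / (1 - γ * ρ) := by ring
        rw [this, div_lt_iff₀ hg]
        exact hm')
    obtain ⟨t, ht, f⟩ := (ev_pos.and e1).exists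
    exact ⟨_, by linarith, f⟩
  have hκ0 : 0 < κ := (div_pos hγ hg).trans hκ1
  have hκ : γ * (1 + κ * ρ) < κ := by
    rw [div_lt_iff₀ hg] at hκ1
    linarith
  obtain ⟨e, he1, he2⟩ : ∃ e, κ * l ^ 2 < 2 * e ∧ m' * (2 * e) < ρ := by
    have e1 : ∀ᶠ t in 𝓝[>] (0 : ℝ), m' * (2 * (κ * l ^ 2 / 2 + t)) < ρ :=
      ev_lt (by fun_prop) continuous_const (by
        show m' * (2 * (κ * l ^ 2 / 2 + 0)) < ρ
        linarith)
    obtain ⟨t, ht, f⟩ := (ev_pos.and e1).exists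
    exact ⟨_, by linarith, f⟩
  have he0 : 0 < e := by nlinarith [mul_nonneg hκ0.le (sq_nonneg l)]
  have a1 := half_planes H hP hm h0 c1 c2 hγ.le hγm hκ hκ0.le he1
  have a2 := half_planes H.rf hP.rf hm h0 c2 (by rwa [rf_rf]) hγ.le hγm hκ hκ0.le he1
  obtain ⟨s, hs, hb⟩ := (nhdsGT_basis (0 : ℝ)).eventually_iff.1 (a1.and a2)
  obtain ⟨n, hn⟩ : ∃ n, n = ρ / (2 * e) := ⟨_, rfl⟩
  have hn0 : 0 < n := by rw [hn]; positivity
  have hn1 : n * (2 * e) = ρ := by rw [hn]; field_simp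
  have hn2 : m' < n := by rw [hn, lt_div_iff₀ (by positivity)]; exact he2
  have key : ∀ v ∈ K, n * |v.2| < s → v.1 ≤ 1 - n / 2 * v.2 ^ 2 := by
    intro v hv hvs
    rcases lt_trichotomy v.2 0 with h | h | h
    · rw [abs_of_neg h] at hvs
      have := (hb ⟨mul_pos hn0 (neg_pos.2 h), hvs⟩).2 (v.1, -v.2) (mem_rf.2 (by simpa using hv))
      simp only at this
      refine le_of_mul_le_mul_left ?_ h0
      have h3 : e * (n * -v.2) ^ 2 = ρ * (n / 2 * v.2 ^ 2) := by rw [← hn1]; ring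
      nlinarith
    · simpa [h] using H.le v hv
    · rw [abs_of_pos h] at hvs
      have := (hb ⟨mul_pos hn0 h, hvs⟩).1 v hv
      refine le_of_mul_le_mul_left ?_ h0
      have h3 : e * (n * v.2) ^ 2 = ρ * (n / 2 * v.2 ^ 2) := by rw [← hn1]; ring
      nlinarith
  have b1 : ∀ᶠ v in 𝓝 ((1, 0) : V), n * |v.2| < s :=
    ContinuousAt.eventually_lt (by fun_prop) continuousAt_const (by simpa using hs)
  have b2 : ∀ᶠ v in 𝓝 ((1, 0) : V), 0 < v.1 :=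
    ContinuousAt.eventually_lt continuousAt_const (by fun_prop) (by simp)
  have b3 : ∀ᶠ v in 𝓝 ((1, 0) : V), m' + n ^ 2 / 4 * v.2 ^ 2 < n :=
    ContinuousAt.eventually_lt (by fun_prop) continuousAt_const (by simpa using hn2)
  filter_upwards [b1, b2, b3] with v f1 f2 f3 hv
  have h4 := pow_le_pow_left₀ f2.le (key v hv f1) 2
  nlinarith [mul_le_mul_of_nonneg_right f3.le (sq_nonneg v.2)]

end Pool.Agent.Lib.MP_5b78b3_gt.Pl
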