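import Pool.Agent.Lib.MP_5b78b3_gt.Pl.A

/-! From local comparison with ellipses to three point convexity. -/

namespace Pool.Agent.Lib.MP_5b78b3_gt.Pl

open MeasureTheory Set Filter Topology

variable {K : Set V} {ρ m : ℝ} {D : ENNReal}

lemma Hyp.g_le (H : Hyp K ρ D) {v : V} : gauge K v ≤ 1 ↔ v ∈ K := by
  rw [gauge_le_one_iff_mem_closure H.cv H.nh, H.cp.isClosed.closure_eq]

lemma Hyp.g_cont (H : Hyp K ρ D) : Continuous (gauge K) := continuous_gauge H.cv H.nh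

lemma g_smul (K : Set V) {t : ℝ} (ht : 0 ≤ t) (v : V) : gauge K (t • v) = t * gauge K v :=
  gauge_smul_of_nonneg ht v

lemma Hyp.g_pos (H : Hyp K ρ D) {v : V} (hv : v ≠ 0) : 0 < gauge K v :=
  (gauge_pos (absorbent_nhds_zero H.nh)
    (NormedSpace.isVonNBounded_of_isBounded ℝ H.cp.isBounded)).2 hv

lemma g_norm {v : V} (hv : 0 < gauge K v) : gauge K ((gauge K v)⁻¹ • v) = 1 := by
  rw [g_smul K (inv_nonneg.2 hv.le), inv_mul_cancel₀ hv.ne']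

/-- near each boundary point `K` lies in a tangent centred ellipse of discriminant `m` -/
def Loc (K : Set V) (m : ℝ) : Prop :=
  ∀ w, gauge K w = 1 → ∃ ξ1 ξ2 : ℝ, ξ1 * w.1 + ξ2 * w.2 = 1 ∧
    ∀ᶠ v in 𝓝 w, v ∈ K → (ξ1 * v.1 + ξ2 * v.2) ^ 2 + m * dt w v ^ 2 ≤ 1

lemma Hyp.loc_gauge (H : Hyp K ρ D) {w : V} (hw : gauge K w = 1) {ξ1 ξ2 : ℝ}
    (h : ∀ᶠ v in 𝓝 w, v ∈ K → (ξ1 * v.1 + ξ2 * v.2) ^ 2 + m * dt w v ^ 2 ≤ 1) :
    ∀ᶠ v in 𝓝 w, (ξ1 * v.1 + ξ2 * v.2) ^ 2 + m * dt w v ^ 2 ≤ gauge K v ^ 2 := by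
  have h1 : ContinuousAt (fun v : V => (gauge K v)⁻¹ • v) w :=
    (H.g_cont.continuousAt.inv₀ (by rw [hw]; exact one_ne_zero)).smul continuousAt_id
  have h2 : Tendsto (fun v : V => (gauge K v)⁻¹ • v) (𝓝 w) (𝓝 w) := by
    simpa [ContinuousAt, hw] using h1
  have h3 : ∀ᶠ v in 𝓝 w, 0 < gauge K v :=
    ContinuousAt.eventually_lt continuousAt_const H.g_cont.continuousAt (by rw [hw]; exact one_pos)
  filter_upwards [h2.eventually h, h3] with v hv hv0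
  have h4 := hv (H.g_le.1 (g_norm hv0).le)
  simp only [dt, Prod.smul_fst, Prod.smul_snd, smul_eq_mul] at h4 ⊢
  have h5 := mul_le_mul_of_nonneg_left h4 (sq_nonneg (gauge K v))
  refine le_trans (le_of_eq ?_) (h5.trans_eq (mul_one _))
  field_simp

lemma quad {A B : ℝ} (h : ∀ᶠ u in 𝓝 (0 : ℝ), u * B + u ^ 2 * A ≤ 0) : B = 0 ∧ A ≤ 0 := by
  have key : ∀ {B : ℝ}, (∀ᶠ u in 𝓝 (0 : ℝ), u * B + u ^ 2 * A ≤ 0) → B ≤ 0 := fun {B} h => by
    by_contra! hB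
    have e1 : ∀ᶠ u in 𝓝[>] (0 : ℝ), 0 < B + u * A :=
      ev_lt continuous_const (by fun_prop) (by simpa using hB)
    obtain ⟨u, ⟨hu, f1⟩, f2⟩ := ((ev_pos.and e1).and (h.filter_mono nhdsWithin_le_nhds)).exists
    nlinarith [mul_pos hu f1]
  have h1 := key h
  have h2 : -B ≤ 0 := key (by
    filter_upwards [(continuous_neg.tendsto' (0 : ℝ) 0 neg_zero).eventually h] with u hu
    linarith)
  have hB : B = 0 := by linarith
  refine ⟨hB, ?_⟩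
  obtain ⟨u, hu, f2⟩ := (ev_pos.and (h.filter_mono nhdsWithin_le_nhds)).exists
  rw [hB] at f2
  by_contra! hA
  nlinarith [mul_pos (pow_pos hu 2) hA]

lemma Hyp.P_of_loc (H : Hyp K ρ D) (hL : Loc K m) : P K m := by
  intro a ha b hb γ α β hγ hdet hα hβ hq
  by_cases hγ1 : 1 ≤ γ
  · exact comb' H.cv H.zero ha hb hγ1 hα hβ hq
  by_contra hnot
  have hg1 : 1 < gauge K (α • a + β • b) := not_le.1 fun h => hnot (H.g_le.1 h)
  have hS : 0 < α + β := by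
    by_contra! h
    exact hnot (comb H.cv H.zero ha hb hα hβ (by linarith))
  obtain ⟨c, hc⟩ : ∃ c : ℝ → V, ∀ t, c t = (1 - t) • a + t • b := ⟨_, fun _ => rfl⟩
  have hcc : Continuous c := by
    rw [show c = fun t => (1 - t) • a + t • b from funext hc]
    fun_prop
  obtain ⟨G, hG⟩ : ∃ G : ℝ → ℝ, ∀ t, G t = gauge K (c t) := ⟨_, fun _ => rfl⟩
  have hGc : Continuous G := by
    rw [show G = fun t => gauge K (c t) from funext hG]
    exact H.g_cont.comp hcc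
  have hG0 : ∀ t, 0 ≤ G t := fun t => by rw [hG]; exact gauge_nonneg _
  obtain ⟨t1, ht1⟩ : ∃ t1, t1 = β / (α + β) := ⟨_, rfl⟩
  have hβ1 : β = (α + β) * t1 := by rw [ht1]; field_simp
  have hα1 : α = (α + β) * (1 - t1) := by linarith
  have ht10 : 0 ≤ t1 := by rw [ht1]; positivity
  have ht11 : t1 ≤ 1 := by rw [ht1, div_le_one hS]; linarith
  have h1 : α • a + β • b = (α + β) • c t1 := by
    rw [hc, smul_add, smul_smul, smul_smul, ← hα1, ← hβ1]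
  rw [h1, g_smul K hS.le, ← hG] at hg1
  obtain ⟨η, hη⟩ : ∃ η, η = G t1 ^ 2 - ((1 - t1) ^ 2 + t1 ^ 2 + 2 * γ * (1 - t1) * t1) := ⟨_, rfl⟩
  have hη0 : 0 < η := by
    have h2 : (α + β) ^ 2 * ((1 - t1) ^ 2 + t1 ^ 2 + 2 * γ * (1 - t1) * t1) ≤ 1 := by
      refine le_trans (le_of_eq ?_) hq
      nth_rewrite 2 [hα1, hβ1]
      have e1 : α ^ 2 = ((α + β) * (1 - t1)) ^ 2 := by rw [← hα1]
      have e2 : β ^ 2 = ((α + β) * t1) ^ 2 := by rw [← hβ1]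
      have e3 : α * β = ((α + β) * (1 - t1)) * ((α + β) * t1) := by rw [← hα1, ← hβ1]
      rw [← hβ1, ← hα1]
      linear_combination -e1 - e2 - 2 * γ * e3
    have h3 : 1 < ((α + β) * G t1) ^ 2 := one_lt_pow₀ hg1 two_ne_zero
    rw [hη]
    by_contra! h4
    nlinarith [mul_le_mul_of_nonneg_left h4 (sq_nonneg (α + β))]
  have e1 : ∀ᶠ ε in 𝓝[>] (0 : ℝ), (1 + ε) ^ 2 < 1 + η ^ 2 :=
    ev_lt (by fun_prop) continuous_const (by simpa using pow_pos hη0 2)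
  have e2 : ∀ᶠ ε in 𝓝[>] (0 : ℝ), ε < η / 4 :=
    ev_lt continuous_id continuous_const (by simpa using hη0)
  obtain ⟨ε, ⟨hε, f1⟩, f2⟩ := ((ev_pos.and e1).and e2).exists
  obtain ⟨s, hs⟩ : ∃ s, s = 1 + ε := ⟨_, rfl⟩
  rw [← hs] at f1
  have hs1 : 1 < s := by linarith
  set T : Set ℝ := Icc 0 1 ∩
    {t | s * ((1 - t) ^ 2 + t ^ 2) + 2 * (γ + η) * ((1 - t) * t) ≤ G t ^ 2} with hT
  have hTc : IsCompact T := isCompact_Icc.inter_right (isClosed_le (by fun_prop) (by fun_prop))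
  have hT1 : t1 ∈ T := by
    refine ⟨⟨ht10, ht11⟩, ?_⟩
    simp only [mem_ofPred_eq]
    have h2 : (1 - t1) ^ 2 + t1 ^ 2 ≤ 1 := by nlinarith [mul_nonneg ht10 (sub_nonneg.2 ht11)]
    have h3 : (1 - t1) * t1 ≤ 1 / 4 := by nlinarith [sq_nonneg (1 - 2 * t1)]
    rw [hs]
    nlinarith [mul_le_mul_of_nonneg_left h2 hε.le, mul_le_mul_of_nonneg_left h3 hη0.le]
  have hTo : ∀ t ∈ T, 0 < t ∧ t < 1 := by
    rintro t ⟨⟨h2, h3⟩, h4⟩
    simp only [mem_ofPred_eq] at h4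
    refine ⟨lt_of_le_of_ne h2 ?_, lt_of_le_of_ne h3 ?_⟩
    · rintro rfl
      have h5 : G 0 ≤ 1 := by rw [hG, hc]; simpa using H.g_le.2 ha
      nlinarith [hG0 0]
    · rintro rfl
      have h5 : G 1 ≤ 1 := by rw [hG, hc]; simpa using H.g_le.2 hb
      nlinarith [hG0 1]
  have hpos : ∀ t : ℝ, 0 < t → t < 1 → 0 < 2 * ((1 - t) * t) := fun t h2 h3 =>
    mul_pos two_pos (mul_pos (by linarith) h2)
  obtain ⟨t0, ht0, hmax⟩ := hTc.exists_isMaxOn ⟨t1, hT1⟩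
    (f := fun t => (G t ^ 2 - s * ((1 - t) ^ 2 + t ^ 2)) / (2 * ((1 - t) * t)))
    (ContinuousOn.div (by fun_prop) (by fun_prop) fun t ht => (hpos t (hTo t ht).1 (hTo t ht).2).ne')
  obtain ⟨τ, hτ⟩ : ∃ τ, τ = (G t0 ^ 2 - s * ((1 - t0) ^ 2 + t0 ^ 2)) / (2 * ((1 - t0) * t0)) :=
    ⟨_, rfl⟩
  obtain ⟨h00, h01⟩ := hTo t0 ht0
  have hp0 := hpos t0 h00 h01
  have hτ0 : γ + η ≤ τ := by
    rw [hτ, le_div_iff₀ hp0]
    have := ht0.2
    simp only [mem_ofPred_eq] at this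
    linarith
  have heq : G t0 ^ 2 = s - 2 * (s - τ) * ((1 - t0) * t0) := by
    rw [eq_div_iff hp0.ne'] at hτ
    linear_combination -hτ
  have hle : ∀ t, 0 < t → t < 1 → G t ^ 2 ≤ s - 2 * (s - τ) * ((1 - t) * t) := fun t h2 h3 => by
    have hp := hpos t h2 h3
    by_cases ht : t ∈ T
    · have h4 : (G t ^ 2 - s * ((1 - t) ^ 2 + t ^ 2)) / (2 * ((1 - t) * t)) ≤ τ := by
        rw [hτ]
        exact hmax ht
      rw [div_le_iff₀ hp] at h4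
      linarith
    · have h4 : G t ^ 2 < s * ((1 - t) ^ 2 + t ^ 2) + 2 * (γ + η) * ((1 - t) * t) :=
        not_le.1 fun h => ht ⟨⟨h2.le, h3.le⟩, h⟩
      nlinarith [mul_le_mul_of_nonneg_right hτ0 hp.le]
  have hG00 : 0 < G t0 := by
    have := ht0.2
    simp only [mem_ofPred_eq] at this
    refine lt_of_le_of_ne (hG0 t0) fun h => ?_
    rw [← h] at this
    nlinarith [mul_nonneg (add_nonneg hγ hη0.le) hp0.le, mul_pos h00 h00, sq_nonneg (1 - t0)]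
  obtain ⟨ξ1, ξ2, hξ, hev⟩ := hL ((G t0)⁻¹ • c t0) (by
    rw [hG]; exact g_norm (by rw [← hG]; exact hG00))
  have hev2 := H.loc_gauge (by rw [hG]; exact g_norm (by rw [← hG]; exact hG00)) hev
  have h5 : Tendsto (fun u : ℝ => (G t0)⁻¹ • c (t0 + u)) (𝓝 0) (𝓝 ((G t0)⁻¹ • c t0)) := by
    have : Continuous fun u : ℝ => (G t0)⁻¹ • c (t0 + u) := by fun_prop
    simpa using this.tendsto 0
  have h6 : ∀ᶠ u in 𝓝 (0 : ℝ), 0 < t0 + u :=
    ContinuousAt.eventually_lt continuousAt_const (by fun_prop) (by simpa using h00)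
  have h7 : ∀ᶠ u in 𝓝 (0 : ℝ), t0 + u < 1 :=
    ContinuousAt.eventually_lt (by fun_prop) continuousAt_const (by simpa using h01)
  obtain ⟨x, hx⟩ : ∃ x, x = ξ1 * (b.1 - a.1) + ξ2 * (b.2 - a.2) := ⟨_, rfl⟩
  have h8 : ∀ᶠ u in 𝓝 (0 : ℝ), u * (2 * G t0 * x + 2 * (s - τ) * (1 - 2 * t0)) +
      u ^ 2 * (x ^ 2 + m * dt a b ^ 2 / G t0 ^ 2 - 2 * (s - τ)) ≤ 0 := by
    filter_upwards [h5.eventually hev2, h6, h7] with u f3 f4 f5
    rw [g_smul K (inv_nonneg.2 hG00.le), ← hG] at f3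
    have g1 : ξ1 * ((G t0)⁻¹ • c (t0 + u)).1 + ξ2 * ((G t0)⁻¹ • c (t0 + u)).2 =
        1 + u * x / G t0 := by
      rw [← hξ, hc, hc, hx]
      simp only [Prod.smul_fst, Prod.smul_snd, Prod.fst_add, Prod.snd_add, smul_eq_mul]
      field_simp
      ring
    have g2 : dt ((G t0)⁻¹ • c t0) ((G t0)⁻¹ • c (t0 + u)) = u * dt a b / G t0 ^ 2 := by
      rw [hc, hc]
      simp only [dt, Prod.smul_fst, Prod.smul_snd, Prod.fst_add, Prod.snd_add, smul_eq_mul]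
      field_simp
      ring
    rw [g1, g2] at f3
    have g3 := mul_le_mul_of_nonneg_left f3 (sq_nonneg (G t0))
    have g4 : G t0 ^ 2 * ((G t0)⁻¹ * G (t0 + u)) ^ 2 = G (t0 + u) ^ 2 := by field_simp
    have g5 : G t0 ^ 2 * ((1 + u * x / G t0) ^ 2 + m * (u * dt a b / G t0 ^ 2) ^ 2) =
        G t0 ^ 2 + u * (2 * G t0 * x) + u ^ 2 * (x ^ 2 + m * dt a b ^ 2 / G t0 ^ 2) := by
      field_simp
      ring
    rw [g4, g5] at g3
    have g6 := hle _ f4 f5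
    linear_combination g3 + g6 - heq
  obtain ⟨hB, hA⟩ := quad h8
  have h9 : m * dt a b ^ 2 ≤ s ^ 2 - τ ^ 2 := by
    have g1 := mul_le_mul_of_nonneg_left hA (sq_nonneg (G t0))
    have g2 : G t0 ^ 2 * (x ^ 2 + m * dt a b ^ 2 / G t0 ^ 2 - 2 * (s - τ)) =
        (G t0 * x) ^ 2 + m * dt a b ^ 2 - 2 * (s - τ) * G t0 ^ 2 := by
      field_simp
    have g3 : G t0 * x = -((s - τ) * (1 - 2 * t0)) := by linarith
    rw [g2, g3, heq] at g1
    linear_combination g1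
  linarith [mul_nonneg hγ hη0.le, pow_le_pow_left₀ (add_nonneg hγ hη0.le) hτ0 2]

end Pool.Agent.Lib.MP_5b78b3_gt.Pl
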