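import Pool.Agent.Lib.MP_5b78b3_gt.Pl.B
import Pool.Agent.Lib.MP_5b78b3_gt.Pl.C

/-! The planar rigidity theorem in coordinates. -/

namespace Pool.Agent.Lib.MP_5b78b3_gt.Pl

open MeasureTheory Set Filter Topology

variable {K : Set V} {ρ m : ℝ} {D : ENNReal}

/-- the intersection of the halfplanes cutting off at most `D` lies in `ρ K` -/
def Rev (K : Set V) (ρ : ℝ) (D : ENNReal) : Prop :=
  ∀ y : V, (∀ u1 u2 t : ℝ, volume (K ∩ {p | t < u1 * p.1 + u2 * p.2}) ≤ D →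
    u1 * y.1 + u2 * y.2 ≤ t) → ∃ v ∈ K, y = ρ • v

lemma Hyp.exists_fun (H : Hyp K ρ D) (hR : Rev K ρ D) (h0 : 0 < ρ) {w : V} (hw : gauge K w = 1) :
    ∃ ξ1 ξ2 : ℝ, ξ1 * w.1 + ξ2 * w.2 = 1 ∧ volume (K ∩ {p | ρ < ξ1 * p.1 + ξ2 * p.2}) ≤ D := by
  have hwK : w ∈ K := H.g_le.1 hw.le
  have step : ∀ ε : ℝ, 0 < ε → ∃ ξ : V, ξ.1 * w.1 + ξ.2 * w.2 = 1 ∧
      volume (K ∩ {p | ρ * (1 + ε) < ξ.1 * p.1 + ξ.2 * p.2}) ≤ D := fun ε hε => by
    have h1 : ¬∃ v ∈ K, (ρ * (1 + ε)) • w = ρ • v := by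
      rintro ⟨v, hv, e⟩
      have h2 := congrArg (gauge K) e
      rw [g_smul K (by positivity), g_smul K h0.le, hw] at h2
      nlinarith [mul_le_mul_of_nonneg_left (H.g_le.2 hv) h0.le, mul_pos h0 hε]
    obtain ⟨u1, u2, t, hv, ht⟩ : ∃ u1 u2 t : ℝ, volume (K ∩ {p | t < u1 * p.1 + u2 * p.2}) ≤ D ∧
        t < u1 * ((ρ * (1 + ε)) • w).1 + u2 * ((ρ * (1 + ε)) • w).2 := by
      by_contra! hc
      exact h1 (hR _ hc)
    have h2 := H.fl u1 u2 t hv w hwK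
    simp only [Prod.smul_fst, Prod.smul_snd, smul_eq_mul] at ht
    obtain ⟨z, hz⟩ : ∃ z, z = u1 * w.1 + u2 * w.2 := ⟨_, rfl⟩
    have ht' : t < ρ * (1 + ε) * z := by rw [hz]; linarith
    rw [← hz] at h2
    have hz0 : 0 < z := by
      by_contra! h
      nlinarith [mul_nonneg (mul_pos h0 hε).le (neg_nonneg.2 h)]
    refine ⟨(u1 / z, u2 / z), ?_, le_trans (measure_mono ?_) hv⟩
    · simp only
      field_simp
      rw [hz]
    · rintro p ⟨hp, hp1⟩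
      refine ⟨hp, ?_⟩
      simp only [mem_ofPred_eq] at hp1 ⊢
      have : u1 / z * p.1 + u2 / z * p.2 = (u1 * p.1 + u2 * p.2) / z := by ring
      rw [this, lt_div_iff₀ hz0] at hp1
      linarith
  choose ξ hξ1 hξ2 using fun n : ℕ => step (1 / ((n : ℝ) + 1)) Nat.one_div_pos_of_nat
  obtain ⟨r, hr, hrK⟩ := Metric.mem_nhds_iff.1 H.nh
  have hb : ∀ n, ξ n ∈ Metric.closedBall (0 : V) (4 / r) := fun n => by
    have h1 : ∀ v : V, ‖v‖ < r → (ξ n).1 * v.1 + (ξ n).2 * v.2 ≤ 2 := fun v hv => by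
      have h2 := H.fl _ _ _ (hξ2 n) v (hrK (mem_ball_zero_iff.2 hv))
      have h3 : 1 / ((n : ℝ) + 1) ≤ 1 := by
        rw [div_le_one (by positivity)]
        linarith [Nat.cast_nonneg (α := ℝ) n]
      linarith [le_of_mul_le_mul_left h2 h0]
    have h2 : |r| / 2 < r := by rw [abs_of_pos hr]; linarith
    have a1 := h1 (r / 2, 0) (by simpa [Prod.norm_def, hr] using h2)
    have a2 := h1 (-(r / 2), 0) (by simpa [Prod.norm_def, hr] using h2)
    have a3 := h1 (0, r / 2) (by simpa [Prod.norm_def, hr] using h2)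
    have a4 := h1 (0, -(r / 2)) (by simpa [Prod.norm_def, hr] using h2)
    simp only at a1 a2 a3 a4
    rw [mem_closedBall_zero_iff, Prod.norm_def, max_le_iff, Real.norm_eq_abs, Real.norm_eq_abs,
      abs_le, abs_le, le_div_iff₀ hr, le_div_iff₀ hr, ← neg_div, div_le_iff₀ hr, div_le_iff₀ hr]
    refine ⟨⟨?_, ?_⟩, ?_, ?_⟩ <;> linarith
  obtain ⟨x, -, φ, hφ, hlim⟩ := (isCompact_closedBall (0 : V) (4 / r)).tendsto_subseq hb
  have hl : ∀ p : V, Tendsto (fun n => (ξ (φ n)).1 * p.1 + (ξ (φ n)).2 * p.2) atTop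
      (𝓝 (x.1 * p.1 + x.2 * p.2)) := fun p =>
    (hlim.fst_nhds.mul_const _).add (hlim.snd_nhds.mul_const _)
  refine ⟨x.1, x.2, ?_, ?_⟩
  · refine tendsto_nhds_unique (hl w) ?_
    simp only [hξ1]
    exact tendsto_const_nhds
  · have h1 : Tendsto (fun n => ρ * (1 + 1 / ((φ n : ℝ) + 1))) atTop (𝓝 ρ) := by
      have := (tendsto_one_div_add_atTop_nhds_zero_nat (𝕜 := ℝ)).comp hφ.tendsto_atTop
      simpa using (this.const_add 1).const_mul ρ
    set B : ℕ → Set V := fun N => ⋂ n ≥ N,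
      K ∩ {p | ρ * (1 + 1 / ((φ n : ℝ) + 1)) < (ξ (φ n)).1 * p.1 + (ξ (φ n)).2 * p.2} with hB
    have hm : Monotone B := fun N N' h => biInter_subset_biInter_left fun n hn => h.trans hn
    refine le_trans (measure_mono (t := ⋃ N, B N) ?_) ?_
    · rintro p ⟨hp, hp1⟩
      obtain ⟨N, hN⟩ := eventually_atTop.1 (h1.eventually_lt (hl p) hp1)
      exact mem_iUnion.2 ⟨N, mem_iInter₂.2 fun n hn => ⟨hp, hN n hn⟩⟩
    · rw [hm.measure_iUnion]
      exact iSup_le fun N => le_trans (measure_mono (biInter_subset_of_mem (le_refl N))) (hξ2 _)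

/-- normal coordinates at a boundary point -/
lemma Hyp.normal (H : Hyp K ρ D) (hR : Rev K ρ D) (h0 : 0 < ρ) {w : V} (hw : gauge K w = 1) :
    ∃ (ξ1 ξ2 : ℝ) (K' : Set V), ξ1 * w.1 + ξ2 * w.2 = 1 ∧ Nm K' ρ D ∧ (∀ m, P K m → P K' m) ∧
      ∀ v : V, v ∈ K ↔ ((ξ1 * v.1 + ξ2 * v.2, dt w v) : V) ∈ K' := by
  obtain ⟨ξ1, ξ2, h1, h2⟩ := H.exists_fun hR h0 hw
  have hd : (w.1 * ξ1 - -ξ2 * w.2) ^ 2 = 1 := by
    rw [show w.1 * ξ1 - -ξ2 * w.2 = 1 by linarith, one_pow]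
  have key : ∀ p : V, ξ1 * (lin w.1 (-ξ2) w.2 ξ1 p).1 + ξ2 * (lin w.1 (-ξ2) w.2 ξ1 p).2 = p.1 :=
    fun p => by
      rw [lin_apply]
      simp only
      linear_combination p.1 * h1
  refine ⟨ξ1, ξ2, lin w.1 (-ξ2) w.2 ξ1 ⁻¹' K, h1, ⟨H.pre hd, ?_, fun v hv => ?_, ?_⟩,
    fun m hP => hP.pre hd, fun v => ?_⟩
  · simpa [lin_apply] using H.g_le.1 hw.le
  · have := H.fl _ _ _ h2 _ hv
    rw [key] at this
    nlinarith
  · refine le_trans (le_of_eq ?_) h2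
    rw [← vol_pre hd (K ∩ _)]
    congr 1
    ext p
    simp only [mem_preimage, mem_inter_iff, mem_ofPred_eq, key]
  · rw [mem_preimage, lin_apply]
    have : ((w.1 * (ξ1 * v.1 + ξ2 * v.2) + -ξ2 * dt w v, w.2 * (ξ1 * v.1 + ξ2 * v.2) +
        ξ1 * dt w v) : V) = v := by
      ext
      · simp only [dt]
        linear_combination v.1 * h1
      · simp only [dt]
        linear_combination v.2 * h1
    rw [this]

lemma om_half (H : Nm K ρ D) (hP : P K m) (hm : 0 ≤ m) (h0 : 0 < ρ) {l γ C x y : ℝ}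
    (c : Ch K ρ l) (hγ : ρ ≤ γ) (hγm : γ ^ 2 + m * l ^ 2 = 1) (hC : γ - ρ ≤ C * l) (hx : ρ < x)
    (hy : 0 ≤ y) (h : (x + C * y) ^ 2 + m * y ^ 2 ≤ 1) : ((x, y) : V) ∈ K := by
  have hl := c.1
  have hC0 : 0 ≤ C := by
    by_contra! h1
    nlinarith [mul_neg_of_neg_of_pos h1 hl]
  have hyl : y ≤ l := by
    by_contra! h1
    have h2 : γ < x + C * y := by nlinarith [mul_le_mul_of_nonneg_left h1.le hC0]
    nlinarith [mul_le_mul_of_nonneg_left (pow_le_pow_left₀ hl.le h1.le 2) hm,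
      pow_lt_pow_left₀ h2 (by linarith) two_ne_zero]
  obtain ⟨β, hβ⟩ : ∃ β, β = y / l := ⟨_, rfl⟩
  have hβ0 : 0 ≤ β := by rw [hβ]; positivity
  have hβ1 : β ≤ 1 := by rw [hβ, div_le_one hl]; exact hyl
  have hβl : y = β * l := by rw [hβ]; field_simp
  have hα : 0 ≤ x - β * ρ := by nlinarith
  have h1 : x - β * ρ + γ * β ≤ x + C * y := by
    rw [hβl]
    nlinarith [mul_le_mul_of_nonneg_left hC hβ0]
  have h2 := pow_le_pow_left₀ (add_nonneg hα (mul_nonneg (by linarith) hβ0)) h1 2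
  have h3 := hP _ H.w _ c.2.1 γ (x - β * ρ) β (by linarith) (by simp only [dt]; nlinarith) hα hβ0
    (by rw [hβl] at h h2; linear_combination h2 + h - β ^ 2 * hγm)
  convert h3 using 1
  ext
  · simp
  · simp [hβl]

lemma Nm.vol_ge (H : Nm K ρ D) : D ≤ volume (K ∩ {p | ρ ≤ p.1}) := by
  set A : ℕ → Set V := fun n => K ∩ {p | ρ - 1 / ((n : ℝ) + 1) < p.1} with hA
  have h1 : Antitone A := fun n n' h p hp => ⟨hp.1, by
    have h2 : 1 / ((n' : ℝ) + 1) ≤ 1 / ((n : ℝ) + 1) := Nat.one_div_le_one_div h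
    have h3 : ρ - 1 / ((n' : ℝ) + 1) < p.1 := hp.2
    show ρ - 1 / ((n : ℝ) + 1) < p.1
    linarith⟩
  have h2 : ⋂ n, A n ⊆ K ∩ {p | ρ ≤ p.1} := fun p hp => by
    rw [mem_iInter] at hp
    refine ⟨(hp 0).1, ?_⟩
    by_contra hc
    have hc' : 0 < ρ - p.1 := sub_pos.2 (not_le.1 hc)
    obtain ⟨n, hn⟩ := exists_nat_one_div_lt hc'
    have h3 : ρ - 1 / ((n : ℝ) + 1) < p.1 := (hp n).2
    linarith
  refine le_trans ?_ (measure_mono h2)
  rw [h1.measure_iInter (fun n => (H.cp.measurableSet.inter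
    (isOpen_lt continuous_const continuous_fst).measurableSet).nullMeasurableSet)
    ⟨0, ((measure_mono inter_subset_left).trans_lt H.cp.measure_lt_top).ne⟩]
  refine le_iInf fun n => ?_
  by_contra! hc
  have := H.fl 1 0 (ρ - 1 / ((n : ℝ) + 1)) (by simpa [hA] using hc.le) _ H.w
  simp only at this
  linarith [Nat.one_div_pos_of_nat (α := ℝ) (n := n)]

lemma om_full (H : Nm K ρ D) (hP : P K m) (h0 : 0 < ρ) (hD : D ≠ ⊤)
    (hv : volume {p : V | ρ < p.1 ∧ p.1 ^ 2 + m * p.2 ^ 2 < 1} ≤ D) :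
    ∀ p : V, ρ < p.1 → p.1 ^ 2 + m * p.2 ^ 2 < 1 → p ∈ K := by
  intro p hp1 hp2
  by_contra hp
  set O : Set V := {p : V | ρ < p.1 ∧ p.1 ^ 2 + m * p.2 ^ 2 < 1} with hO
  have hOo : IsOpen O :=
    (isOpen_lt continuous_const continuous_fst).inter
      (isOpen_lt (f := fun p : V => p.1 ^ 2 + m * p.2 ^ 2) (by fun_prop) continuous_const)
  have hU : volume (O \ K) ≠ 0 :=
    (hOo.sdiff H.cp.isClosed).measure_ne_zero volume ⟨p, ⟨hp1, hp2⟩, hp⟩
  have h1 : D ≤ volume (O ∩ K) := by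
    refine H.vol_ge.trans (le_trans (measure_mono
      (t := ((O ∩ K) ∪ frontier K) ∪ {p : V | p.1 = ρ}) ?_) ?_)
    · rintro q ⟨hq, hq1⟩
      rcases (show ρ ≤ q.1 from hq1).eq_or_lt with h | h
      · exact Or.inr h.symm
      by_cases hf : q ∈ interior K
      · refine Or.inl (Or.inl ⟨⟨h, ?_⟩, hq⟩)
        have hc : Continuous fun t : ℝ => (1 + t) • q := by fun_prop
        have e1 : ∀ᶠ t in 𝓝[>] (0 : ℝ), (1 + t) • q ∈ K :=
          nhdsWithin_le_nhds (hc.continuousAt.preimage_mem_nhds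
            (by simpa using mem_interior_iff_mem_nhds.1 hf))
        obtain ⟨t, ht, f⟩ := (ev_pos.and e1).exists
        have h2 := cap_sub hP H.w H.le f (by
          simp only [Prod.smul_fst, smul_eq_mul]
          exact mul_pos (by linarith) (by linarith))
        simp only [Prod.smul_fst, Prod.smul_snd, smul_eq_mul] at h2
        by_contra! h3
        nlinarith [mul_le_mul_of_nonneg_left h3 (sq_nonneg (1 + t))]
      · exact Or.inl (Or.inr ⟨subset_closure hq, hf⟩)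
    · refine (measure_union_le _ _).trans ?_
      rw [vol_line, add_zero]
      refine (measure_union_le _ _).trans ?_
      rw [H.cv.addHaar_frontier volume, add_zero]
  have h2 : volume (O ∩ K) + volume (O \ K) = volume O :=
    measure_inter_add_sdiff _ H.cp.measurableSet
  have h3 : D + volume (O \ K) ≤ D + 0 := by
    rw [add_zero]
    exact (add_le_add h1 le_rfl).trans (h2.le.trans hv)
  exact hU (le_zero_iff.1 ((ENNReal.add_le_add_iff_left hD).1 h3))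

lemma Hyp.gain (H : Hyp K ρ D) (hR : Rev K ρ D) (h0 : 0 < ρ) (h1 : ρ < 1) (h2 : 1 ≤ 2 * ρ ^ 2)
    (hP : P K m) (hm : 0 ≤ m) {C : ℝ} (hC : 0 < C)
    (hv : D < volume {p : V | ρ < p.1 ∧ (p.1 + C * |p.2|) ^ 2 + m * p.2 ^ 2 ≤ 1}) :
    P K (m + C ^ 2) := by
  refine H.P_of_loc fun w hw => ?_
  obtain ⟨ξ1, ξ2, K', e1, N, hP', hK⟩ := H.normal hR h0 hw
  have hQ := hP' m hP
  obtain ⟨l, c1, c2⟩ := N.mid h0 h1
  have hl := c1.1
  have h3 := cap_sub hQ N.w N.le c1.2.1 h0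
  simp only at h3
  obtain ⟨γ, hγ, hγm⟩ : ∃ γ, ρ ≤ γ ∧ γ ^ 2 + m * l ^ 2 = 1 :=
    ⟨√(1 - m * l ^ 2), Real.le_sqrt_of_sq_le (by linarith), by
      rw [Real.sq_sqrt (by nlinarith)]; ring⟩
  have hγ1 : γ ≤ 1 := by nlinarith [mul_nonneg hm (sq_nonneg l)]
  have hCl : C * l < γ - ρ := by
    by_contra! hc
    refine hv.not_ge (le_trans (measure_mono ?_) N.vol)
    rintro ⟨x, y⟩ ⟨hx, hy⟩
    refine ⟨?_, hx⟩
    simp only at hx hy
    rcases le_total 0 y with h | h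
    · rw [abs_of_nonneg h] at hy
      exact om_half N hQ hm h0 c1 hγ hγm hc hx h hy
    · rw [abs_of_nonpos h] at hy
      have := om_half N.rf hQ.rf hm h0 c2 hγ hγm hc hx (neg_nonneg.2 h) (by simpa using hy)
      simpa using mem_rf.1 this
  have hγ0 : 0 < γ := by linarith
  have h4 := improve N hQ hm h0 (m' := m + C ^ 2) c1 c2 hγ0 (by nlinarith) (by linarith) (by
    have a1 := mul_lt_mul_of_pos_right
      (pow_lt_pow_left₀ hCl (mul_pos hC hl).le two_ne_zero) hγ0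
    have a2 : 0 ≤ (γ - ρ) * (2 * γ * ρ - 1) :=
      mul_nonneg (by linarith) (by nlinarith [mul_le_mul_of_nonneg_right hγ h0.le])
    linear_combination a1 + a2 + γ * hγm)
  refine ⟨ξ1, ξ2, e1, ?_⟩
  have h5 : Tendsto (fun v : V => ((ξ1 * v.1 + ξ2 * v.2, dt w v) : V)) (𝓝 w) (𝓝 (1, 0)) := by
    have : Continuous fun v : V => ((ξ1 * v.1 + ξ2 * v.2, dt w v) : V) := by
      unfold dt
      fun_prop
    refine this.tendsto' _ _ ?_
    rw [e1]
    simp [dt, mul_comm]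
  filter_upwards [h5.eventually h4] with v hv1 hv2
  exact hv1 ((hK v).1 hv2)

lemma Hyp.exists_full (H : Hyp K ρ D) (hR : Rev K ρ D) (h0 : 0 < ρ) (h1 : ρ < 1)
    (h2 : 1 ≤ 2 * ρ ^ 2) : ∃ m, 0 ≤ m ∧ P K m ∧
      volume {p : V | ρ < p.1 ∧ p.1 ^ 2 + m * p.2 ^ 2 < 1} ≤ D := by
  set S : Set ℝ := {m | 0 ≤ m ∧ P K m} with hS
  have hne : (0 : ℝ) ∈ S := ⟨le_rfl, P_zero H.cv H.zero⟩
  have hbd : BddAbove S := by
    obtain ⟨ξ1, ξ2, K', -, N, hP', -⟩ := H.normal hR h0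
      (g_norm (H.g_pos (v := (1, 0)) (by simp)))
    have hc : Continuous fun t : ℝ => ((t, t) : V) := by fun_prop
    have e1 : ∀ᶠ t in 𝓝[>] (0 : ℝ), ((t, t) : V) ∈ K' :=
      nhdsWithin_le_nhds (hc.continuousAt.preimage_mem_nhds N.nh)
    obtain ⟨t, ht, f⟩ := (ev_pos.and e1).exists
    refine ⟨1 / t ^ 2, fun m hm => ?_⟩
    have := cap_sub (hP' m hm.2) N.w N.le f ht
    rw [le_div_iff₀ (by positivity)]
    nlinarith [sq_nonneg t]
  have hm0 : 0 ≤ sSup S := le_csSup hbd hne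
  have hP : P K (sSup S) := P_closed H.cp.isClosed fun ε hε => by
    obtain ⟨m', hm', h⟩ := exists_lt_of_lt_csSup ⟨0, hne⟩ (sub_lt_self (sSup S) hε)
    exact ⟨m', h.le, hm'.2⟩
  refine ⟨sSup S, hm0, hP, ?_⟩
  set B : ℕ → Set V := fun n =>
    {p : V | ρ < p.1 ∧ (p.1 + 1 / ((n : ℝ) + 1) * |p.2|) ^ 2 + sSup S * p.2 ^ 2 ≤ 1} with hB
  have hmono : Monotone B := fun n n' h p hp => ⟨hp.1, by
    have a1 : 1 / ((n' : ℝ) + 1) ≤ 1 / ((n : ℝ) + 1) := Nat.one_div_le_one_div h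
    have a2 := mul_le_mul_of_nonneg_right a1 (abs_nonneg p.2)
    have a3 : 0 ≤ p.1 + 1 / ((n' : ℝ) + 1) * |p.2| :=
      add_nonneg (h0.trans hp.1).le (by positivity)
    linarith [pow_le_pow_left₀ a3 (add_le_add le_rfl a2) 2, hp.2]⟩
  refine le_trans (measure_mono (t := ⋃ n, B n) ?_) ?_
  · rintro p ⟨hp, hp1⟩
    have a1 : Tendsto (fun n : ℕ => (p.1 + 1 / ((n : ℝ) + 1) * |p.2|) ^ 2 + sSup S * p.2 ^ 2) atTop
        (𝓝 (p.1 ^ 2 + sSup S * p.2 ^ 2)) := by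
      simpa using ((((tendsto_one_div_add_atTop_nhds_zero_nat (𝕜 := ℝ)).mul_const
        |p.2|).const_add p.1).pow 2).add_const (sSup S * p.2 ^ 2)
    obtain ⟨n, hn⟩ := (a1.eventually_lt_const hp1).exists
    exact mem_iUnion.2 ⟨n, hp, hn.le⟩
  · rw [hmono.measure_iUnion]
    refine iSup_le fun n => ?_
    by_contra! hc
    have hC : 0 < 1 / ((n : ℝ) + 1) := Nat.one_div_pos_of_nat
    have := le_csSup hbd ⟨by positivity, H.gain hR h0 h1 h2 hP hm0 hC hc⟩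
    nlinarith [pow_pos hC 2]

theorem core (H : Hyp K ρ D) (hR : Rev K ρ D) (hD : D ≠ ⊤) (h0 : 0 < ρ) (h1 : ρ < 1)
    (h2 : 1 ≤ 2 * ρ ^ 2) : ∃ (ξ1 ξ2 m : ℝ) (w : V), 0 < m ∧ ξ1 * w.1 + ξ2 * w.2 = 1 ∧
      ∀ v : V, v ∈ K ↔ (ξ1 * v.1 + ξ2 * v.2) ^ 2 + m * dt w v ^ 2 ≤ 1 := by
  obtain ⟨m, hm, hP, hv⟩ := H.exists_full hR h0 h1 h2
  have hm0 : 0 < m := by
    obtain ⟨ξ1, ξ2, K', -, N, hP', -⟩ := H.normal hR h0
      (g_norm (H.g_pos (v := (1, 0)) (by simp)))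
    refine lt_of_le_of_ne hm ?_
    rintro rfl
    obtain ⟨R, hR'⟩ := N.cp.isBounded.exists_norm_le
    have a1 := hR' _ (om_full N (hP' 0 hP) h0 hD hv ((1 + ρ) / 2, |R| + 1) (by simp only; linarith)
      (by simp only; nlinarith))
    have a2 := (norm_snd_le _).trans a1
    simp only [Real.norm_eq_abs] at a2
    linarith [le_abs_self R, le_abs_self (|R| + 1)]
  have loc : ∀ v0 : V, v0 ≠ 0 → ∃ (ξ1 ξ2 : ℝ) (w : V), ξ1 * w.1 + ξ2 * w.2 = 1 ∧
      ∀ᶠ v in 𝓝 v0, gauge K v ^ 2 = (ξ1 * v.1 + ξ2 * v.2) ^ 2 + m * dt w v ^ 2 := fun v0 hv0 => by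
    have hg := H.g_pos hv0
    obtain ⟨ξ1, ξ2, K', e1, N, hP', hK⟩ := H.normal hR h0 (g_norm hg)
    obtain ⟨w, hw⟩ : ∃ w, w = (gauge K v0)⁻¹ • v0 := ⟨_, rfl⟩
    rw [← hw] at e1 hK
    refine ⟨ξ1, ξ2, w, e1, ?_⟩
    have a1 : ξ1 * v0.1 + ξ2 * v0.2 = gauge K v0 := by
      rw [hw] at e1
      simp only [Prod.smul_fst, Prod.smul_snd, smul_eq_mul] at e1
      field_simp at e1
      linarith
    have a2 : dt w v0 = 0 := by
      rw [hw]
      simp only [dt, Prod.smul_fst, Prod.smul_snd, smul_eq_mul]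
      ring
    have b1 : ∀ᶠ v in 𝓝 v0, 0 < ξ1 * v.1 + ξ2 * v.2 :=
      ContinuousAt.eventually_lt continuousAt_const (by fun_prop) (by rw [a1]; exact hg)
    have b2 : ∀ᶠ v in 𝓝 v0, ρ ^ 2 * ((ξ1 * v.1 + ξ2 * v.2) ^ 2 + m * dt w v ^ 2) <
        (ξ1 * v.1 + ξ2 * v.2) ^ 2 :=
      ContinuousAt.eventually_lt (by unfold dt; fun_prop) (by fun_prop) (by
        rw [a1, a2]
        nlinarith [mul_pos (pow_pos hg 2) (show 0 < 1 - ρ ^ 2 by nlinarith)])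
    have b3 : ∀ᶠ v in 𝓝 v0, 0 < gauge K v :=
      ContinuousAt.eventually_lt continuousAt_const H.g_cont.continuousAt hg
    filter_upwards [b1, b2, b3] with v f1 f2 f3
    obtain ⟨x, hx⟩ : ∃ x, x = ξ1 * v.1 + ξ2 * v.2 := ⟨_, rfl⟩
    obtain ⟨y, hy⟩ : ∃ y, y = dt w v := ⟨_, rfl⟩
    have hs : ∀ t : ℝ, t • v ∈ K ↔ ((t * x, t * y) : V) ∈ K' := fun t => by
      rw [hK, hx, hy]
      simp only [dt, Prod.smul_fst, Prod.smul_snd, smul_eq_mul]
      rw [show ξ1 * (t * v.1) + ξ2 * (t * v.2) = t * (ξ1 * v.1 + ξ2 * v.2) by ring,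
        show w.1 * (t * v.2) - w.2 * (t * v.1) = t * (w.1 * v.2 - w.2 * v.1) by ring]
    rw [← hx, ← hy] at f2 ⊢
    rw [← hx] at f1
    refine le_antisymm ?_ ?_
    · by_contra! hc
      have hq : 0 < x ^ 2 + m * y ^ 2 := by positivity
      obtain ⟨r, hr0, hr⟩ : ∃ r, 0 < r ∧ r ^ 2 = x ^ 2 + m * y ^ 2 :=
        ⟨√(x ^ 2 + m * y ^ 2), Real.sqrt_pos.2 hq, Real.sq_sqrt hq.le⟩
      rw [← hr] at hc f2
      have c1 : r < gauge K v := lt_of_pow_lt_pow_left₀ 2 f3.le hc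
      have c2 : ρ * r < x := lt_of_pow_lt_pow_left₀ 2 f1.le (by rwa [mul_pow])
      have e2 : ∀ᶠ t in 𝓝[>] (0 : ℝ), r + t < gauge K v :=
        ev_lt (by fun_prop) continuous_const (by simpa using c1)
      have e3 : ∀ᶠ t in 𝓝[>] (0 : ℝ), ρ * (r + t) < x :=
        ev_lt (by fun_prop) continuous_const (by simpa using c2)
      obtain ⟨t, ⟨ht, f4⟩, f5⟩ := ((ev_pos.and e2).and e3).exists
      have hrt : 0 < r + t := by linarith
      have c3 := H.g_le.2 ((hs (r + t)⁻¹).2 (om_full N (hP' m hP) h0 hD hv _ (by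
        simp only
        rw [inv_mul_eq_div, lt_div_iff₀ hrt]
        exact f5) (by
        have : ((r + t)⁻¹ * x) ^ 2 + m * ((r + t)⁻¹ * y) ^ 2 = r ^ 2 / (r + t) ^ 2 := by
          rw [hr]
          field_simp
        simp only
        rw [this, div_lt_one (by positivity)]
        nlinarith)))
      rw [g_smul K (inv_nonneg.2 hrt.le), inv_mul_eq_div, div_le_one hrt] at c3
      linarith
    · have c1 := cap_sub (hP' m hP) N.w N.le ((hs _).1 (H.g_le.1 (g_norm f3).le))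
        (mul_pos (inv_pos.2 f3) f1)
      simp only at c1
      have c2 := mul_le_mul_of_nonneg_left c1 (sq_nonneg (gauge K v))
      refine le_trans (le_of_eq ?_) (c2.trans_eq (mul_one _))
      field_simp
  have han : ∀ (ξ1 ξ2 : ℝ) (w v0 : V),
      AnalyticAt ℝ (fun v : V => (ξ1 * v.1 + ξ2 * v.2) ^ 2 + m * dt w v ^ 2) v0 := by
    intro ξ1 ξ2 w v0
    have f1 : AnalyticAt ℝ (fun v : V => v.1) v0 := analyticAt_fst
    have f2 : AnalyticAt ℝ (fun v : V => v.2) v0 := analyticAt_snd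
    exact (((analyticAt_const.mul f1).add (analyticAt_const.mul f2)).pow 2).add
      (analyticAt_const.mul (((analyticAt_const.mul f2).sub (analyticAt_const.mul f1)).pow 2))
  have hga : AnalyticOnNhd ℝ (fun v : V => gauge K v ^ 2) {0}ᶜ := fun v0 hv0 => by
    obtain ⟨ξ1, ξ2, w, -, h⟩ := loc v0 hv0
    exact (han ξ1 ξ2 w v0).congr (EventuallyEq.symm h)
  have hne : ((1, 0) : V) ≠ 0 := by simp
  obtain ⟨ξ1, ξ2, w, e1, h⟩ := loc _ hne
  have hconn : IsPreconnected ({0}ᶜ : Set V) :=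
    (isConnected_compl_singleton_of_one_lt_rank (by
      rw [← Module.finrank_eq_rank]
      simp) 0).isPreconnected
  have heq := hga.eqOn_of_preconnected_of_eventuallyEq (fun v0 _ => han ξ1 ξ2 w v0) hconn hne h
  refine ⟨ξ1, ξ2, m, w, hm0, e1, fun v => ?_⟩
  by_cases hv0 : v = 0
  · subst hv0
    simpa [dt] using H.zero
  · have := heq hv0
    simp only at this
    rw [← this, ← H.g_le, sq_le_one_iff₀ (gauge_nonneg _)]

end Pool.Agent.Lib.MP_5b78b3_gt.Pl
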