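import Pool.Agent.Lib.MP_5b78b3_gt.Pl.D

/-! Reduction to a homothety centred at an interior point, and the Euclidean plane. -/

namespace Pool.Agent.Lib.MP_5b78b3_gt.Pl

open MeasureTheory Set Filter Topology

/-- the floating body of `K` for the area `D` is `c K + x` -/
def Fl (K : Set V) (D : ENNReal) (c : ℝ) (x : V) : Prop :=
  ∀ y : V, (∀ u1 u2 t : ℝ, ((u1, u2) : V) ≠ 0 → volume (K ∩ {p | t < u1 * p.1 + u2 * p.2}) ≤ D →
    u1 * y.1 + u2 * y.2 ≤ t) ↔ ∃ v ∈ K, c • v + x = y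

variable {K : Set V} {D : ENNReal} {c : ℝ} {x : V}

lemma strict (hK : IsCompact K) (hc : Convex ℝ K) (hne : K.Nonempty) (hD : 0 < D)
    (h : Fl K D c x) {u1 u2 : ℝ} (hu : ((u1, u2) : V) ≠ 0) :
    ∃ v0 ∈ K, (∀ v ∈ K, u1 * v.1 + u2 * v.2 ≤ u1 * v0.1 + u2 * v0.2) ∧
      u1 * x.1 + u2 * x.2 < (1 - c) * (u1 * v0.1 + u2 * v0.2) := by
  obtain ⟨v0, hv0, hmax⟩ := hK.exists_isMaxOn hne (f := fun v : V => u1 * v.1 + u2 * v.2)
    (by fun_prop)
  refine ⟨v0, hv0, fun v hv => hmax hv, ?_⟩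
  obtain ⟨M, hM⟩ : ∃ M, M = u1 * v0.1 + u2 * v0.2 := ⟨_, rfl⟩
  have hu2 : 0 < u1 ^ 2 + u2 ^ 2 := by
    by_contra! h1
    refine hu (Prod.ext ?_ ?_)
    · show u1 = 0
      nlinarith [sq_nonneg u1, sq_nonneg u2]
    · show u2 = 0
      nlinarith [sq_nonneg u1, sq_nonneg u2]
  set A : ℕ → Set V := fun n => K ∩ {p | M - 1 / ((n : ℝ) + 1) < u1 * p.1 + u2 * p.2} with hA
  have h1 : Antitone A := fun n n' h p hp => ⟨hp.1, by
    have h2 : 1 / ((n' : ℝ) + 1) ≤ 1 / ((n : ℝ) + 1) := Nat.one_div_le_one_div h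
    have h3 : M - 1 / ((n' : ℝ) + 1) < u1 * p.1 + u2 * p.2 := hp.2
    show M - 1 / ((n : ℝ) + 1) < u1 * p.1 + u2 * p.2
    linarith⟩
  have h2 : ⋂ n, A n ⊆ frontier K := fun p hp => by
    rw [mem_iInter] at hp
    refine ⟨subset_closure (hp 0).1, fun hi => ?_⟩
    have hcn : Continuous fun t : ℝ => p + t • ((u1, u2) : V) := by fun_prop
    have e1 : ∀ᶠ t in 𝓝[>] (0 : ℝ), p + t • ((u1, u2) : V) ∈ K :=
      nhdsWithin_le_nhds (hcn.continuousAt.preimage_mem_nhds
        (by simpa using mem_interior_iff_mem_nhds.1 hi))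
    obtain ⟨t, ht, f⟩ := (ev_pos.and e1).exists
    have h3 : u1 * (p.1 + t * u1) + u2 * (p.2 + t * u2) ≤ u1 * v0.1 + u2 * v0.2 := hmax f
    obtain ⟨n, hn⟩ := exists_nat_one_div_lt (mul_pos ht hu2)
    have h4 : M - 1 / ((n : ℝ) + 1) < u1 * p.1 + u2 * p.2 := (hp n).2
    linarith
  have h3 := (measure_mono h2).trans_eq (hc.addHaar_frontier volume)
  rw [h1.measure_iInter (fun n => (hK.measurableSet.inter
    (isOpen_lt continuous_const (by fun_prop)).measurableSet).nullMeasurableSet)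
    ⟨0, ((measure_mono inter_subset_left).trans_lt hK.measure_lt_top).ne⟩] at h3
  obtain ⟨n, hn⟩ := iInf_lt_iff.1 (h3.trans_lt hD)
  have h4 := (h _).2 ⟨v0, hv0, rfl⟩ u1 u2 _ hu hn.le
  simp only [Prod.fst_add, Prod.snd_add, Prod.smul_fst, Prod.smul_snd, smul_eq_mul] at h4
  linarith [Nat.one_div_pos_of_nat (α := ℝ) (n := n)]

lemma ratio_lt (hK : IsCompact K) (hc : Convex ℝ K) (hne : K.Nonempty) (hD : 0 < D)
    (h : Fl K D c x) : c < 1 := by
  obtain ⟨v0, hv0, a1, a2⟩ := strict hK hc hne hD h (u1 := 1) (u2 := 0) (by simp)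
  obtain ⟨v1, hv1, -, a3⟩ := strict hK hc hne hD h (u1 := -1) (u2 := 0) (by simp)
  have a4 := a1 v1 hv1
  by_contra! h1
  nlinarith [mul_nonneg (sub_nonneg.2 h1) (sub_nonneg.2 a4)]

lemma centre_mem (hK : IsCompact K) (hc : Convex ℝ K) (hne : (interior K).Nonempty) (hD : 0 < D)
    (h : Fl K D c x) : (1 - c)⁻¹ • x ∈ interior K := by
  have hne' := hne.mono interior_subset
  have h1 : 0 < 1 - c := sub_pos.2 (ratio_lt hK hc hne' hD h)
  by_contra hz
  obtain ⟨f, hf⟩ := geometric_hahn_banach_open_point hc.interior isOpen_interior hz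
  have hfe : ∀ v : V, f v = f (1, 0) * v.1 + f (0, 1) * v.2 := fun v => by
    have : v = v.1 • ((1, 0) : V) + v.2 • ((0, 1) : V) := by simp
    nth_rewrite 1 [this]
    rw [map_add, map_smul, map_smul, smul_eq_mul, smul_eq_mul]
    ring
  have hu : ((f (1, 0), f (0, 1)) : V) ≠ 0 := fun h0 => by
    obtain ⟨a, ha⟩ := hne
    have a1 : f (1, 0) = 0 := congrArg Prod.fst h0
    have a2 : f (0, 1) = 0 := congrArg Prod.snd h0
    have := hf a ha
    rw [hfe, hfe (_ • x), a1, a2] at this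
    simp at this
  obtain ⟨v0, hv0, -, a2⟩ := strict hK hc hne' hD h hu
  rw [← hfe, ← hfe] at a2
  have a3 : f v0 ≤ f ((1 - c)⁻¹ • x) := by
    have a4 : v0 ∈ closure (interior K) := by
      rw [hc.closure_interior_eq_closure_of_nonempty_interior hne]
      exact subset_closure hv0
    exact closure_minimal (fun a ha => (hf a ha).le)
      (isClosed_le f.continuous continuous_const) a4
  rw [map_smul, smul_eq_mul, inv_mul_eq_div, le_div_iff₀ h1] at a3
  linarith

theorem core' (hK : IsCompact K) (hc : Convex ℝ K) (hne : (interior K).Nonempty) (hD : 0 < D)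
    (hD' : D ≠ ⊤) (h : Fl K D c x) (h0 : 0 < c) (h2 : 1 ≤ 2 * c ^ 2) :
    ∃ (ξ1 ξ2 m : ℝ) (w z : V), 0 < m ∧ ξ1 * w.1 + ξ2 * w.2 = 1 ∧
      ∀ v : V, v + z ∈ K ↔ (ξ1 * v.1 + ξ2 * v.2) ^ 2 + m * dt w v ^ 2 ≤ 1 := by
  have hne' := hne.mono interior_subset
  have h1 := ratio_lt hK hc hne' hD h
  have hz := centre_mem hK hc hne hD h
  obtain ⟨z, hze⟩ : ∃ z, z = (1 - c)⁻¹ • x := ⟨_, rfl⟩
  rw [← hze] at hz
  have hx : x = (1 - c) • z := by
    rw [hze, smul_smul, mul_inv_cancel₀ (sub_pos.2 h1).ne', one_smul]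
  have hx1 : x.1 = (1 - c) * z.1 := by rw [hx]; rfl
  have hx2 : x.2 = (1 - c) * z.2 := by rw [hx]; rfl
  set K' : Set V := (fun p => p + z) ⁻¹' K with hK'
  have hvol : ∀ u1 u2 t : ℝ, volume (K' ∩ {p | t < u1 * p.1 + u2 * p.2}) =
      volume (K ∩ {p | t + (u1 * z.1 + u2 * z.2) < u1 * p.1 + u2 * p.2}) := fun u1 u2 t => by
    rw [← measure_preimage_add_right volume z (K ∩ _)]
    congr 1
    ext p
    simp only [hK', mem_inter_iff, mem_preimage, mem_ofPred_eq, Prod.fst_add, Prod.snd_add]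
    refine and_congr_right fun _ => ?_
    constructor <;> intro <;> linarith
  have H : Hyp K' c D := by
    refine ⟨(Homeomorph.addRight z).isCompact_preimage.2 hK, hc.translate_preimage_left z, ?_,
      fun u1 u2 t hv v hvK => ?_⟩
    · exact (continuous_add_const z).continuousAt.preimage_mem_nhds
        (by simpa using mem_interior_iff_mem_nhds.1 hz)
    · rw [hvol] at hv
      have a1 := (h _).2 ⟨v + z, hvK, rfl⟩
      simp only [Prod.fst_add, Prod.snd_add, Prod.smul_fst, Prod.smul_snd, smul_eq_mul, hx1,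
        hx2] at a1
      by_cases hu : ((u1, u2) : V) = 0
      · have b1 : u1 = 0 := congrArg Prod.fst hu
        have b2 : u2 = 0 := congrArg Prod.snd hu
        subst b1 b2
        by_contra! ht
        have a2 := a1 1 0 (c * v.1 + z.1 - 1) (by simp) (le_trans (measure_mono fun p hp =>
          mem_inter hp.1 (by simpa using ht)) hv)
        linarith
      · have a2 := a1 u1 u2 _ hu hv
        linarith
  have hR : Rev K' c D := fun y hy => by
    obtain ⟨v, hv, e⟩ := (h (y + z)).1 fun u1 u2 t _ hv => by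
      have := hy u1 u2 (t - (u1 * z.1 + u2 * z.2)) (by rw [hvol]; simpa using hv)
      simp only [Prod.fst_add, Prod.snd_add]
      linarith
    refine ⟨v - z, by simpa [hK'] using hv, ?_⟩
    rw [hx] at e
    rw [eq_sub_of_add_eq e.symm]
    module
  obtain ⟨ξ1, ξ2, m, w, a1, a2, a3⟩ := core H hR hD' h0 h1 h2
  exact ⟨ξ1, ξ2, m, w, z, a1, a2, a3⟩

/-- coordinates on the Euclidean plane -/
noncomputable def co : EuclideanSpace ℝ (Fin 2) ≃L[ℝ] V :=
  (EuclideanSpace.equiv (Fin 2) ℝ).trans (ContinuousLinearEquiv.finTwoArrow ℝ ℝ)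

lemma co_apply (y : EuclideanSpace ℝ (Fin 2)) : co y = (y 0, y 1) := rfl

lemma co_vol (s : Set V) : volume (co ⁻¹' s) = volume s := by
  have h : MeasurePreserving co volume volume :=
    (volume_preserving_finTwoArrow ℝ).comp (PiLp.volume_preserving_ofLp (Fin 2))
  exact h.measure_preimage_emb co.toHomeomorph.measurableEmbedding s

lemma co_inner (u y : EuclideanSpace ℝ (Fin 2)) :
    inner ℝ u y = (co u).1 * (co y).1 + (co u).2 * (co y).2 := by
  simp [co_apply, PiLp.inner_apply, Fin.sum_univ_two, mul_comm]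

lemma co_norm (y : EuclideanSpace ℝ (Fin 2)) : ‖y‖ ^ 2 = (co y).1 ^ 2 + (co y).2 ^ 2 := by
  simp [co_apply, EuclideanSpace.real_norm_sq_eq, Fin.sum_univ_two]

theorem planar (K : Set (EuclideanSpace ℝ (Fin 2))) (δ c : ℝ) (x : EuclideanSpace ℝ (Fin 2))
    (hK : IsCompact K) (hc : Convex ℝ K) (hne : (interior K).Nonempty) (hδ : 0 < δ) (h0 : 0 < c)
    (h2 : 1 ≤ 2 * c ^ 2)
    (h : ∀ y, (∀ (u : EuclideanSpace ℝ (Fin 2)) (t : ℝ), u ≠ 0 →
      volume (K \ {y | inner ℝ u y ≤ t}) ≤ ENNReal.ofReal δ → inner ℝ u y ≤ t) ↔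
        ∃ v ∈ K, c • v + x = y) :
    ∃ A : EuclideanSpace ℝ (Fin 2) ≃ᵃ[ℝ] EuclideanSpace ℝ (Fin 2),
      K = A '' Metric.closedBall 0 1 := by
  have hmem : ∀ y, co y ∈ co '' K ↔ y ∈ K := fun y => co.injective.mem_set_image
  have hvol : ∀ (u : EuclideanSpace ℝ (Fin 2)) (t : ℝ), volume (K \ {y | inner ℝ u y ≤ t}) =
      volume (co '' K ∩ {p | t < (co u).1 * p.1 + (co u).2 * p.2}) := fun u t => by
    rw [← co_vol]
    congr 1
    ext y
    simp only [Set.mem_sdiff, mem_ofPred_eq, mem_preimage, mem_inter_iff, hmem, co_inner, not_le]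
  have hF : Fl (co '' K) (ENNReal.ofReal δ) c (co x) := fun y => by
    obtain ⟨y, rfl⟩ := co.surjective y
    constructor
    · intro hy
      obtain ⟨v, hv, e⟩ := (h y).1 fun u t hu hv => by
        rw [co_inner]
        exact hy _ _ t (fun h0 => hu (co.injective (by rw [map_zero]; exact h0))) (by rwa [← hvol])
      exact ⟨co v, (hmem v).2 hv, by rw [← e, map_add, map_smul]⟩
    · rintro ⟨_, ⟨v, hv, rfl⟩, e⟩ u1 u2 t hu hv'
      obtain ⟨u, hue⟩ := co.surjective (u1, u2)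
      have a1 : (co u).1 = u1 := by rw [hue]
      have a2 : (co u).2 = u2 := by rw [hue]
      have := (h y).2 ⟨v, hv, co.injective (by rw [← e, map_add, map_smul])⟩ u t
        (fun h0 => hu (by rw [← hue, h0, map_zero])) (by rw [hvol, a1, a2]; exact hv')
      rwa [co_inner, a1, a2] at this
  obtain ⟨ξ1, ξ2, m, w, z, hm, e1, hK'⟩ := core' (hK.image co.continuous)
    (hc.linear_image (co : EuclideanSpace ℝ (Fin 2) →ₗ[ℝ] V)) (by
      obtain ⟨a, ha⟩ := hne
      exact ⟨co a, co.toHomeomorph.isOpenMap.image_interior_subset K ⟨a, ha, rfl⟩⟩)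
    (ENNReal.ofReal_pos.2 hδ) ENNReal.ofReal_ne_top hF h0 h2
  obtain ⟨r, hr0, hr⟩ : ∃ r : ℝ, 0 < r ∧ r ^ 2 = m := ⟨√m, Real.sqrt_pos.2 hm, Real.sq_sqrt hm.le⟩
  let L : V ≃ₗ[ℝ] V := LinearEquiv.ofLinearMap (lin ξ1 ξ2 (-(r * w.2)) (r * w.1))
    (lin w.1 (-(ξ2 / r)) w.2 (ξ1 / r))
    (LinearMap.ext fun p => by
      simp only [LinearMap.comp_apply, lin_apply, LinearMap.id_apply]
      ext
      · simp only
        field_simp
        linear_combination r * p.1 * e1
      · simp only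
        field_simp
        linear_combination p.2 * e1)
    (LinearMap.ext fun p => by
      simp only [LinearMap.comp_apply, lin_apply, LinearMap.id_apply]
      ext
      · simp only
        field_simp
        linear_combination p.1 * e1
      · simp only
        field_simp
        linear_combination p.2 * e1)
  let B : EuclideanSpace ℝ (Fin 2) ≃ᵃ[ℝ] EuclideanSpace ℝ (Fin 2) :=
    (AffineEquiv.constVAdd ℝ _ (-co.symm z)).trans
      ((co.toLinearEquiv.trans (L.trans co.symm.toLinearEquiv)).toAffineEquiv)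
  have hB : ∀ y, co (B y) = lin ξ1 ξ2 (-(r * w.2)) (r * w.1) (co y - z) := fun y => by
    show co (co.symm (lin ξ1 ξ2 (-(r * w.2)) (r * w.1) (co (-co.symm z + y)))) = _
    rw [co.apply_symm_apply, map_add, map_neg, co.apply_symm_apply, neg_add_eq_sub]
  refine ⟨B.symm, ?_⟩
  ext y
  rw [AffineEquiv.image_symm, mem_preimage, mem_closedBall_zero_iff,
    ← sq_le_one_iff₀ (norm_nonneg _), co_norm, hB, lin_apply, ← hmem,
    ← sub_add_cancel (co y) z, hK', add_sub_cancel_right]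
  simp only [dt]
  constructor <;> intro h3 <;> refine le_trans (le_of_eq ?_) h3 <;> rw [← hr] <;> ring

end Pool.Agent.Lib.MP_5b78b3_gt.Pl
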